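import Mathlib

/-!
# GM.CauchyPD: positive definiteness of Cauchy matrices

`∑_{i,l} u_i u_l / (ξ_i + ξ_l) > 0` for distinct `ξ_i > 0` and `u ≠ 0`, and the same for
`(b_i + b_l)/(ξ_i + ξ_l)` for a class of weights `b`.
-/

open Finset

namespace Pool.Agent.GM

/-- one step of the elimination -/
lemma cauchy_step {x y z : ℝ} (hx : 0 < x) (hy : 0 < y) (hz : 0 < z) :
    1 / (x + y) = 2 * z * (1 / (x + z)) * (1 / (y + z)) +
      ((x - z) / (x + z)) * ((y - z) / (y + z)) * (1 / (x + y)) := by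
  have h1 : x + y ≠ 0 := by positivity
  have h2 : x + z ≠ 0 := by positivity
  have h3 : y + z ≠ 0 := by positivity
  field_simp
  ring

/-- the Cauchy form -/
noncomputable def cq {ι : Type*} (s : Finset ι) (ξ u : ι → ℝ) : ℝ :=
  ∑ i ∈ s, ∑ l ∈ s, u i * u l * (1 / (ξ i + ξ l))

lemma cq_insert {ι : Type*} [DecidableEq ι] {s : Finset ι} {ξ : ι → ℝ} {c : ι} (hc : c ∉ s)
    (hpos : ∀ i ∈ insert c s, 0 < ξ i) (u : ι → ℝ) :
    cq (insert c s) ξ u = 2 * ξ c * (∑ i ∈ insert c s, u i * (1 / (ξ i + ξ c))) ^ 2 +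
      cq s ξ (fun i => u i * ((ξ i - ξ c) / (ξ i + ξ c))) := by
  have hcpos := hpos c (mem_insert_self c s)
  have e1 : cq (insert c s) ξ u = ∑ i ∈ insert c s, ∑ l ∈ insert c s,
      (2 * ξ c * ((u i * (1 / (ξ i + ξ c))) * (u l * (1 / (ξ l + ξ c)))) +
        (u i * ((ξ i - ξ c) / (ξ i + ξ c))) * (u l * ((ξ l - ξ c) / (ξ l + ξ c))) *
          (1 / (ξ i + ξ l))) := by
    unfold cq
    refine Finset.sum_congr rfl (fun i hi => Finset.sum_congr rfl (fun l hl => ?_))
    linear_combination (u i * u l) * cauchy_step (hpos i hi) (hpos l hl) hcpos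
  rw [e1]
  simp only [Finset.sum_add_distrib]
  congr 1
  · rw [sq, Finset.sum_mul_sum, Finset.mul_sum]
    refine Finset.sum_congr rfl (fun i _ => ?_)
    rw [Finset.mul_sum]
  · rw [Finset.sum_insert hc]
    have e2 : ∑ l ∈ insert c s, (u c * ((ξ c - ξ c) / (ξ c + ξ c))) *
        (u l * ((ξ l - ξ c) / (ξ l + ξ c))) * (1 / (ξ c + ξ l)) = 0 := by
      refine Finset.sum_eq_zero (fun l _ => ?_)
      rw [sub_self, zero_div]
      ring
    rw [e2, zero_add]
    unfold cq
    refine Finset.sum_congr rfl (fun i _ => ?_)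
    rw [Finset.sum_insert hc, sub_self, zero_div]
    ring

lemma cq_nonneg {ι : Type*} [DecidableEq ι] (s : Finset ι) {ξ : ι → ℝ}
    (hpos : ∀ i ∈ s, 0 < ξ i) (u : ι → ℝ) : 0 ≤ cq s ξ u := by
  induction s using Finset.induction_on generalizing u with
  | empty => simp [cq]
  | insert c s hc ih =>
    rw [cq_insert hc hpos]
    have h1 := ih (fun i hi => hpos i (mem_insert_of_mem hi))
      (fun i => u i * ((ξ i - ξ c) / (ξ i + ξ c)))
    have h2 := hpos c (mem_insert_self c s)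
    positivity

lemma cq_pos {ι : Type*} [DecidableEq ι] (s : Finset ι) {ξ : ι → ℝ}
    (hpos : ∀ i ∈ s, 0 < ξ i) (hinj : Set.InjOn ξ s) (u : ι → ℝ) (hu : ∃ i ∈ s, u i ≠ 0) :
    0 < cq s ξ u := by
  induction s using Finset.induction_on generalizing u with
  | empty => simp at hu
  | insert c s hc ih =>
    have hcpos := hpos c (mem_insert_self c s)
    have hpos' : ∀ i ∈ s, 0 < ξ i := fun i hi => hpos i (mem_insert_of_mem hi)
    rw [cq_insert hc hpos]
    by_cases h : ∃ i ∈ s, u i ≠ 0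
    · obtain ⟨i, hi, hui⟩ := h
      have h1 : 0 < cq s ξ (fun i => u i * ((ξ i - ξ c) / (ξ i + ξ c))) := by
        refine ih hpos' (hinj.mono (by simp)) _ ⟨i, hi, ?_⟩
        have h2 : ξ i - ξ c ≠ 0 := by
          intro h3
          have h4 : i = c := hinj (by simp [hi]) (by simp) (by linarith)
          exact hc (h4 ▸ hi)
        have h3 := hpos' i hi
        have h4 : ξ i + ξ c ≠ 0 := by positivity
        exact mul_ne_zero hui (div_ne_zero h2 h4)
      positivity
    · push Not at h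
      have h1 : u c ≠ 0 := by
        obtain ⟨i, hi, hui⟩ := hu
        rcases Finset.mem_insert.1 hi with rfl | hi
        · exact hui
        · exact absurd (h i hi) hui
      have h2 : ∑ i ∈ insert c s, u i * (1 / (ξ i + ξ c)) = u c * (1 / (ξ c + ξ c)) := by
        rw [Finset.sum_insert hc, Finset.sum_eq_zero, add_zero]
        intro i hi
        rw [h i hi, zero_mul]
      rw [h2]
      have h3 := cq_nonneg s hpos' (fun i => u i * ((ξ i - ξ c) / (ξ i + ξ c)))
      have h4 : 0 < (u c * (1 / (ξ c + ξ c))) ^ 2 := by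
        have : u c * (1 / (ξ c + ξ c)) ≠ 0 := mul_ne_zero h1 (by positivity)
        positivity
      have h5 : 0 < 2 * ξ c * (u c * (1 / (ξ c + ξ c))) ^ 2 := by positivity
      linarith

/-- **Cauchy matrices are positive definite.** -/
theorem cauchy_pos {n : ℕ} {ξ : Fin n → ℝ} (hpos : ∀ i, 0 < ξ i) (hinj : Function.Injective ξ)
    {u : Fin n → ℝ} (hu : u ≠ 0) : 0 < ∑ i, ∑ l, 1 / (ξ i + ξ l) * (u i * u l) := by
  have h1 : ∃ i, u i ≠ 0 := by
    by_contra h
    push Not at h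
    exact hu (funext h)
  obtain ⟨i, hi⟩ := h1
  have h2 := cq_pos Finset.univ (fun i _ => hpos i) hinj.injOn u ⟨i, mem_univ i, hi⟩
  unfold cq at h2
  refine lt_of_lt_of_eq h2 ?_
  refine Finset.sum_congr rfl (fun i _ => Finset.sum_congr rfl (fun l _ => ?_))
  ring

/-- **Cauchy matrices are positive semidefinite** (no injectivity). -/
theorem cauchy_nonneg {n : ℕ} {ξ : Fin n → ℝ} (hpos : ∀ i, 0 < ξ i) (u : Fin n → ℝ) :
    0 ≤ ∑ i, ∑ l, 1 / (ξ i + ξ l) * (u i * u l) := by
  have h2 := cq_nonneg Finset.univ (fun i _ => hpos i) u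
  unfold cq at h2
  refine le_of_le_of_eq h2 ?_
  refine Finset.sum_congr rfl (fun i _ => Finset.sum_congr rfl (fun l _ => ?_))
  ring

end Pool.Agent.GM
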