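import Mathlib
import Pool.Agent.GM.CauchyPD

/-!
# GM.CauchyW: weighted Cauchy matrices

Weights `b` on the points `ξ_i > 0` for which `(b_i + b_l)/(ξ_i + ξ_l)` is positive
(semi)definite: `ξ ^ σ` for `-1 ≤ σ ≤ 1`, `ξ/(ξ²+ω²)`, sums and positive multiples.
-/

open Finset MeasureTheory

namespace Pool.Agent.GM

/-- `(b_i + b_l)/(ξ_i + ξ_l)` is positive semidefinite -/
def PRW {n : ℕ} (ξ b : Fin n → ℝ) : Prop :=
  ∀ u : Fin n → ℝ, 0 ≤ ∑ i, ∑ l, (b i + b l) / (ξ i + ξ l) * (u i * u l)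

/-- `(b_i + b_l)/(ξ_i + ξ_l)` is positive definite -/
def PRWs {n : ℕ} (ξ b : Fin n → ℝ) : Prop :=
  ∀ u : Fin n → ℝ, u ≠ 0 → 0 < ∑ i, ∑ l, (b i + b l) / (ξ i + ξ l) * (u i * u l)

lemma PRWs.prw {n : ℕ} {ξ b : Fin n → ℝ} (h : PRWs ξ b) : PRW ξ b := by
  intro u
  by_cases hu : u = 0
  · subst hu
    simp
  · exact (h u hu).le

lemma PRW.add {n : ℕ} {ξ b c : Fin n → ℝ} (hb : PRW ξ b) (hc : PRW ξ c) :
    PRW ξ (fun i => b i + c i) := by
  intro u
  have h := add_nonneg (hb u) (hc u)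
  rw [← Finset.sum_add_distrib] at h
  refine le_of_le_of_eq h (Finset.sum_congr rfl (fun i _ => ?_))
  rw [← Finset.sum_add_distrib]
  exact Finset.sum_congr rfl (fun l _ => by ring)

lemma PRWs.add {n : ℕ} {ξ b c : Fin n → ℝ} (hb : PRWs ξ b) (hc : PRW ξ c) :
    PRWs ξ (fun i => b i + c i) := by
  intro u hu
  have h := add_pos_of_pos_of_nonneg (hb u hu) (hc u)
  rw [← Finset.sum_add_distrib] at h
  refine lt_of_lt_of_eq h (Finset.sum_congr rfl (fun i _ => ?_))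
  rw [← Finset.sum_add_distrib]
  exact Finset.sum_congr rfl (fun l _ => by ring)

lemma PRW.smul {n : ℕ} {ξ b : Fin n → ℝ} (hb : PRW ξ b) {c : ℝ} (hc : 0 ≤ c) :
    PRW ξ (fun i => c * b i) := by
  intro u
  have h := mul_nonneg hc (hb u)
  rw [Finset.mul_sum] at h
  refine le_of_le_of_eq h (Finset.sum_congr rfl (fun i _ => ?_))
  rw [Finset.mul_sum]
  exact Finset.sum_congr rfl (fun l _ => by ring)

lemma PRWs.smul {n : ℕ} {ξ b : Fin n → ℝ} (hb : PRWs ξ b) {c : ℝ} (hc : 0 < c) :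
    PRWs ξ (fun i => c * b i) := by
  intro u hu
  have h := mul_pos hc (hb u hu)
  rw [Finset.mul_sum] at h
  refine lt_of_lt_of_eq h (Finset.sum_congr rfl (fun i _ => ?_))
  rw [Finset.mul_sum]
  exact Finset.sum_congr rfl (fun l _ => by ring)

lemma prws_one {n : ℕ} {ξ : Fin n → ℝ} (hpos : ∀ i, 0 < ξ i) (hinj : Function.Injective ξ) :
    PRWs ξ (fun _ => 1) := by
  intro u hu
  have h := cauchy_pos hpos hinj hu
  have e : ∑ i, ∑ l, ((1 : ℝ) + 1) / (ξ i + ξ l) * (u i * u l) =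
      2 * ∑ i, ∑ l, 1 / (ξ i + ξ l) * (u i * u l) := by
    rw [Finset.mul_sum]
    refine Finset.sum_congr rfl (fun i _ => ?_)
    rw [Finset.mul_sum]
    exact Finset.sum_congr rfl (fun l _ => by ring)
  beta_reduce
  rw [e]
  linarith

/-- the weight `ξ` gives the rank one matrix -/
lemma sum_xi {n : ℕ} {ξ : Fin n → ℝ} (hpos : ∀ i, 0 < ξ i) (u : Fin n → ℝ) :
    ∑ i, ∑ l, (ξ i + ξ l) / (ξ i + ξ l) * (u i * u l) = (∑ i, u i) ^ 2 := by
  rw [sq, Finset.sum_mul_sum]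
  refine Finset.sum_congr rfl (fun i _ => Finset.sum_congr rfl (fun l _ => ?_))
  have h : ξ i + ξ l ≠ 0 := by
    have h1 := hpos i
    have h2 := hpos l
    positivity
  rw [div_self h, one_mul]

lemma prw_xi {n : ℕ} {ξ : Fin n → ℝ} (hpos : ∀ i, 0 < ξ i) : PRW ξ ξ := by
  intro u
  rw [sum_xi hpos]
  positivity

lemma sum_inv {n : ℕ} {ξ : Fin n → ℝ} (hpos : ∀ i, 0 < ξ i) (u : Fin n → ℝ) :
    ∑ i, ∑ l, ((ξ i)⁻¹ + (ξ l)⁻¹) / (ξ i + ξ l) * (u i * u l) = (∑ i, u i / ξ i) ^ 2 := by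
  rw [sq, Finset.sum_mul_sum]
  refine Finset.sum_congr rfl (fun i _ => Finset.sum_congr rfl (fun l _ => ?_))
  have h1 := hpos i
  have h2 := hpos l
  have h : ξ i + ξ l ≠ 0 := by positivity
  field_simp
  ring

lemma prw_inv {n : ℕ} {ξ : Fin n → ℝ} (hpos : ∀ i, 0 < ξ i) : PRW ξ (fun i => (ξ i)⁻¹) := by
  intro u
  rw [sum_inv hpos]
  positivity

/-- the weight `ξ/(ξ²+ω²)` -/
lemma prw_pole {n : ℕ} {ξ : Fin n → ℝ} (hpos : ∀ i, 0 < ξ i) (ω : ℝ) :
    PRW ξ (fun i => ξ i / (ξ i ^ 2 + ω ^ 2)) := by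
  intro u
  have e : ∑ i, ∑ l, (ξ i / (ξ i ^ 2 + ω ^ 2) + ξ l / (ξ l ^ 2 + ω ^ 2)) / (ξ i + ξ l) *
      (u i * u l) = (∑ i, ξ i * u i / (ξ i ^ 2 + ω ^ 2)) ^ 2 +
      (∑ i, ω * u i / (ξ i ^ 2 + ω ^ 2)) ^ 2 := by
    rw [sq (∑ i, ξ i * u i / (ξ i ^ 2 + ω ^ 2)), sq (∑ i, ω * u i / (ξ i ^ 2 + ω ^ 2)),
      Finset.sum_mul_sum, Finset.sum_mul_sum, ← Finset.sum_add_distrib]
    refine Finset.sum_congr rfl (fun i _ => ?_)
    rw [← Finset.sum_add_distrib]
    refine Finset.sum_congr rfl (fun l _ => ?_)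
    have h1 := hpos i
    have h2 := hpos l
    have h : ξ i + ξ l ≠ 0 := by positivity
    have h3 : ξ i ^ 2 + ω ^ 2 ≠ 0 := by positivity
    have h4 : ξ l ^ 2 + ω ^ 2 ≠ 0 := by positivity
    field_simp
    ring
  rw [e]
  positivity

/-- `∑ ξ_i^σ/(ξ_i + ξ_l) u_i u_l > 0`, `0 ≤ σ < 1`. -/
theorem cauchy_rpow_pos {n : ℕ} {ξ : Fin n → ℝ} (hpos : ∀ i, 0 < ξ i)
    (hinj : Function.Injective ξ) {σ : ℝ} (h0 : 0 ≤ σ) (h1 : σ < 1) {w : Fin n → ℝ} (hw : w ≠ 0) :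
    0 < ∑ j, ∑ k, ξ j ^ σ * (1 / (ξ j + ξ k)) * (w j * w k) := by
  rcases eq_or_lt_of_le h0 with h | h0
  · subst h
    simpa only [Real.rpow_zero, one_mul] using cauchy_pos hpos hinj hw
  obtain ⟨μ, hm⟩ := Real.exists_measure_rpow_eq_integral_rpowIntegrand₀₁ ⟨h0, h1⟩
  have hint : ∀ j : Fin n, IntegrableOn (fun s => Real.rpowIntegrand₀₁ σ s (ξ j))
      (Set.Ioi 0) μ := fun j => (hm _ (Set.mem_Ici.2 (hpos j).le)).1
  have hval : ∀ j : Fin n, ξ j ^ σ = ∫ s in Set.Ioi 0, Real.rpowIntegrand₀₁ σ s (ξ j) ∂μ :=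
    fun j => (hm _ (Set.mem_Ici.2 (hpos j).le)).2
  -- pointwise
  have hpt : ∀ s : ℝ, 0 < s → 0 < ∑ j, ∑ k,
      1 / (ξ j + ξ k) * (w j * w k) * Real.rpowIntegrand₀₁ σ s (ξ j) := by
    intro s hs
    set u : Fin n → ℝ := fun k => w k / (s + ξ k) with hu
    have hst : ∀ k, 0 < s + ξ k := fun k => add_pos hs (hpos k)
    have hta : (fun k => ξ k * u k) ≠ 0 := by
      intro h
      apply hw
      funext k
      have h2 := congrFun h k
      simp only [hu, Pi.zero_apply] at h2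
      have h3 := (hst k).ne'
      have h4 := (hpos k).ne'
      rcases mul_eq_zero.1 h2 with h5 | h5
      · exact absurd h5 h4
      · exact (div_eq_zero_iff.1 h5).resolve_right h3
    have e : ∑ j, ∑ k, 1 / (ξ j + ξ k) * (w j * w k) * Real.rpowIntegrand₀₁ σ s (ξ j) =
        s ^ (σ - 1) * (∑ j, ∑ k,
            1 / (ξ j + ξ k) * ((fun k => ξ k * u k) j * (fun k => ξ k * u k) k)) +
          s ^ (σ - 1) * s * (∑ j, ∑ k, ξ j * (1 / (ξ j + ξ k)) * (u j * u k)) := by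
      simp only [Finset.mul_sum, ← Finset.sum_add_distrib]
      refine Finset.sum_congr rfl (fun j _ => Finset.sum_congr rfl (fun k _ => ?_))
      have hj' := hst j
      have hk' := hst k
      have h5 : ξ j + ξ k ≠ 0 := (add_pos (hpos j) (hpos k)).ne'
      rw [Real.rpowIntegrand₀₁_eq_pow_div ⟨h0, h1⟩ hs.le (hpos j).le]
      simp only [hu]
      field_simp
      ring
    have e2 : ∑ j, ∑ k, ξ j * (1 / (ξ j + ξ k)) * (u j * u k) = (∑ j, u j) ^ 2 / 2 := by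
      have h6 : ∑ j, ∑ k, ξ j * (1 / (ξ j + ξ k)) * (u j * u k) =
          ∑ j, ∑ k, ξ k * (1 / (ξ j + ξ k)) * (u j * u k) := by
        rw [Finset.sum_comm]
        refine Finset.sum_congr rfl (fun j _ => Finset.sum_congr rfl (fun k _ => ?_))
        rw [add_comm (ξ k) (ξ j)]
        ring
      have h7 := sum_xi hpos u
      have h8 : ∑ j, ∑ k, ξ j * (1 / (ξ j + ξ k)) * (u j * u k) +
          ∑ j, ∑ k, ξ k * (1 / (ξ j + ξ k)) * (u j * u k) = (∑ i, u i) ^ 2 := by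
        rw [← h7, ← Finset.sum_add_distrib]
        refine Finset.sum_congr rfl (fun j _ => ?_)
        rw [← Finset.sum_add_distrib]
        exact Finset.sum_congr rfl (fun k _ => by ring)
      linarith
    rw [e, e2]
    have hs1 : 0 < s ^ (σ - 1) := Real.rpow_pos_of_pos hs _
    exact add_pos_of_pos_of_nonneg (mul_pos hs1 (cauchy_pos hpos hinj hta))
      (mul_nonneg (mul_nonneg hs1.le hs.le) (by positivity))
  have hInt : IntegrableOn (fun s => ∑ j, ∑ k,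
      1 / (ξ j + ξ k) * (w j * w k) * Real.rpowIntegrand₀₁ σ s (ξ j)) (Set.Ioi 0) μ :=
    integrable_finsetSum _ (fun j _ => integrable_finsetSum _
      (fun k _ => (hint j).const_mul _))
  have hform : ∑ j, ∑ k, ξ j ^ σ * (1 / (ξ j + ξ k)) * (w j * w k) =
      ∫ s in Set.Ioi 0, ∑ j, ∑ k,
        1 / (ξ j + ξ k) * (w j * w k) * Real.rpowIntegrand₀₁ σ s (ξ j) ∂μ := by
    rw [integral_finsetSum _ (fun j _ => ?_)]
    · refine Finset.sum_congr rfl (fun j _ => ?_)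
      rw [integral_finsetSum _ (fun k _ => ?_)]
      · refine Finset.sum_congr rfl (fun k _ => ?_)
        rw [integral_const_mul, ← hval j]
        ring
      · exact (hint j).const_mul _
    · exact integrable_finsetSum _ (fun k _ => (hint j).const_mul _)
  rw [hform]
  rw [integral_pos_iff_support_of_nonneg_ae]
  · have hne : (μ.restrict (Set.Ioi 0)) Set.univ ≠ 0 := by
      intro h
      rw [Measure.measure_univ_eq_zero] at h
      have h2 := (hm 1 (by simp)).2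
      rw [h, Real.one_rpow, integral_zero_measure] at h2
      exact one_ne_zero h2
    have hsupp : (Function.support (fun s => ∑ j, ∑ k,
        1 / (ξ j + ξ k) * (w j * w k) * Real.rpowIntegrand₀₁ σ s (ξ j))) ∩ Set.Ioi 0 =
        Set.Ioi 0 := by
      refine Set.inter_eq_right.2 (fun s hs => ?_)
      exact (hpt s hs).ne'
    have h3 : (μ.restrict (Set.Ioi 0)) (Function.support (fun s => ∑ j, ∑ k,
        1 / (ξ j + ξ k) * (w j * w k) * Real.rpowIntegrand₀₁ σ s (ξ j))) =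
        (μ.restrict (Set.Ioi 0)) Set.univ := by
      rw [Measure.restrict_apply' measurableSet_Ioi, hsupp,
        Measure.restrict_apply MeasurableSet.univ, Set.univ_inter]
    rw [h3]
    exact pos_iff_ne_zero.2 hne
  · filter_upwards [self_mem_ae_restrict (measurableSet_Ioi : MeasurableSet (Set.Ioi (0 : ℝ)))]
      with s hs
    exact (hpt s hs).le
  · exact hInt

/-- the weight `ξ^σ`, `0 ≤ σ < 1` -/
lemma prws_rpow_nonneg {n : ℕ} {ξ : Fin n → ℝ} (hpos : ∀ i, 0 < ξ i)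
    (hinj : Function.Injective ξ) {σ : ℝ} (h0 : 0 ≤ σ) (h1 : σ < 1) :
    PRWs ξ (fun i => ξ i ^ σ) := by
  intro u hu
  have h := cauchy_rpow_pos hpos hinj h0 h1 hu
  have h6 : ∑ j, ∑ k, ξ j ^ σ * (1 / (ξ j + ξ k)) * (u j * u k) =
      ∑ j, ∑ k, ξ k ^ σ * (1 / (ξ j + ξ k)) * (u j * u k) := by
    rw [Finset.sum_comm]
    refine Finset.sum_congr rfl (fun j _ => Finset.sum_congr rfl (fun k _ => ?_))
    rw [add_comm (ξ k) (ξ j)]
    ring
  have h8 : ∑ i, ∑ l, (ξ i ^ σ + ξ l ^ σ) / (ξ i + ξ l) * (u i * u l) =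
      ∑ j, ∑ k, ξ j ^ σ * (1 / (ξ j + ξ k)) * (u j * u k) +
      ∑ j, ∑ k, ξ k ^ σ * (1 / (ξ j + ξ k)) * (u j * u k) := by
    rw [← Finset.sum_add_distrib]
    refine Finset.sum_congr rfl (fun j _ => ?_)
    rw [← Finset.sum_add_distrib]
    exact Finset.sum_congr rfl (fun k _ => by ring)
  beta_reduce
  rw [h8]
  linarith

/-- the weight `ξ^σ`, `-1 < σ < 1` -/
theorem prws_rpow {n : ℕ} {ξ : Fin n → ℝ} (hpos : ∀ i, 0 < ξ i)
    (hinj : Function.Injective ξ) {σ : ℝ} (h0 : -1 < σ) (h1 : σ < 1) :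
    PRWs ξ (fun i => ξ i ^ σ) := by
  rcases le_or_gt 0 σ with h | h
  · exact prws_rpow_nonneg hpos hinj h h1
  · intro u hu
    have hv : (fun i => ξ i ^ σ * u i) ≠ 0 := by
      intro h
      apply hu
      funext k
      have h2 := congrFun h k
      simp only [Pi.zero_apply] at h2
      exact (mul_eq_zero.1 h2).resolve_left (Real.rpow_pos_of_pos (hpos k) _).ne'
    have h3 := prws_rpow_nonneg hpos hinj (σ := -σ) (by linarith) (by linarith) _ hv
    refine lt_of_lt_of_eq h3 (Finset.sum_congr rfl (fun i _ => Finset.sum_congr rfl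
      (fun l _ => ?_)))
    have h4 := Real.rpow_pos_of_pos (hpos i) σ
    have h5 := Real.rpow_pos_of_pos (hpos l) σ
    have h6 := hpos i
    have h7 := hpos l
    have h8 : ξ i + ξ l ≠ 0 := by positivity
    beta_reduce
    rw [Real.rpow_neg h6.le, Real.rpow_neg h7.le]
    field_simp
    ring

end Pool.Agent.GM
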