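import Mathlib
import Pool.Agent.H62LR.Homotopy
import Pool.Agent.H62LR.Compose
import Pool.Agent.H62LR.Mult
import Pool.Agent.H49.RRDefs
import Pool.Agent.H49.PowerForm
import Pool.Agent.H49.LeRoyContra

/-!
# GM.Cert: energy certificates for real powers of PF sequences

`T_k = a_k / a_{k+1}`.  A certificate of base `m` is a kernel `C` on `{0,…,n-1}` with
`C > 0`, `T` accretive for `C`, and `∑ T_j ^ m C(j,k) w_{j+1} w_k ≥ 0` on the space
`∑ w = ∑ k w = 0` (all three only for vectors with alternating signs).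
It excludes double zeros of `∑ a_k ^ s x^k` for `m - 1 < s ≤ m`.
-/

open Finset MeasureTheory

namespace Pool.Agent.GM

open Pool.Agent.H62LR

/-- vectors with alternating signs on `{0,…,n-1}` -/
def Alt (n : ℕ) (w : ℕ → ℝ) : Prop := ∀ k < n, 0 < (-1 : ℝ) ^ k * w k

/-- the ratio `T_k = a_k / a_{k+1}` -/
noncomputable def T (a : ℕ → ℝ) (k : ℕ) : ℝ := a k / a (k + 1)

/-- Energy certificate of base `m`. -/
structure Cert (m n : ℕ) (a : ℕ → ℝ) (C : ℕ → ℕ → ℝ) : Prop where
  pos : ∀ w : ℕ → ℝ, Alt n w → 0 < ∑ j ∈ range n, ∑ k ∈ range n, C j k * (w j * w k)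
  acc : ∀ w : ℕ → ℝ, Alt n w → 0 ≤ ∑ j ∈ range n, ∑ k ∈ range n, T a j * C j k * (w j * w k)
  sup : ∀ w : ℕ → ℝ, Alt (n + 1) w → ∑ k ∈ range (n + 1), w k = 0 →
    ∑ k ∈ range (n + 1), (k : ℝ) * w k = 0 →
    0 ≤ ∑ j ∈ range n, ∑ k ∈ range n, T a j ^ m * C j k * (w (j + 1) * w k)

/-- Fractional powers of an accretive diagonal matrix. -/
lemma rpow_accretive {n : ℕ} (C : ℕ → ℕ → ℝ) (t : ℕ → ℝ) (ht : ∀ k < n, 0 < t k)
    (hpos : ∀ w : ℕ → ℝ, Alt n w → 0 < ∑ j ∈ range n, ∑ k ∈ range n, C j k * (w j * w k))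
    (hacc : ∀ w : ℕ → ℝ, Alt n w →
      0 ≤ ∑ j ∈ range n, ∑ k ∈ range n, t j * C j k * (w j * w k))
    {σ : ℝ} (h0 : 0 ≤ σ) (h1 : σ < 1) (w : ℕ → ℝ) (hw : Alt n w) :
    0 < ∑ j ∈ range n, ∑ k ∈ range n, t j ^ σ * C j k * (w j * w k) := by
  rcases eq_or_lt_of_le h0 with h | h0
  · subst h
    simpa only [Real.rpow_zero, one_mul] using hpos w hw
  obtain ⟨μ, hm⟩ := Real.exists_measure_rpow_eq_integral_rpowIntegrand₀₁ ⟨h0, h1⟩
  have hint : ∀ j < n, IntegrableOn (fun s => Real.rpowIntegrand₀₁ σ s (t j))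
      (Set.Ioi 0) μ := fun j hj => (hm _ (Set.mem_Ici.2 (ht j hj).le)).1
  have hval : ∀ j < n, t j ^ σ = ∫ s in Set.Ioi 0, Real.rpowIntegrand₀₁ σ s (t j) ∂μ :=
    fun j hj => (hm _ (Set.mem_Ici.2 (ht j hj).le)).2
  -- pointwise
  have hpt : ∀ s : ℝ, 0 < s → 0 < ∑ j ∈ range n, ∑ k ∈ range n,
      C j k * (w j * w k) * Real.rpowIntegrand₀₁ σ s (t j) := by
    intro s hs
    set u : ℕ → ℝ := fun k => w k / (s + t k) with hu
    have hst : ∀ k < n, 0 < s + t k := fun k hk => add_pos hs (ht k hk)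
    have hua : Alt n u := by
      intro k hk
      have := div_pos (hw k hk) (hst k hk)
      rw [mul_div_assoc] at this
      exact this
    have hta : Alt n (fun k => t k * u k) := by
      intro k hk
      have := mul_pos (ht k hk) (hua k hk)
      calc (0 : ℝ) < t k * ((-1 : ℝ) ^ k * u k) := this
        _ = (-1 : ℝ) ^ k * (t k * u k) := by ring
    have e : ∑ j ∈ range n, ∑ k ∈ range n,
        C j k * (w j * w k) * Real.rpowIntegrand₀₁ σ s (t j) =
        s ^ (σ - 1) * (∑ j ∈ range n, ∑ k ∈ range n,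
            C j k * ((fun k => t k * u k) j * (fun k => t k * u k) k)) +
          s ^ (σ - 1) * s * (∑ j ∈ range n, ∑ k ∈ range n, t j * C j k * (u j * u k)) := by
      simp only [Finset.mul_sum, ← Finset.sum_add_distrib]
      refine Finset.sum_congr rfl (fun j hj => Finset.sum_congr rfl (fun k hk => ?_))
      have hj' := hst j (mem_range.1 hj)
      have hk' := hst k (mem_range.1 hk)
      rw [Real.rpowIntegrand₀₁_eq_pow_div ⟨h0, h1⟩ hs.le (ht j (mem_range.1 hj)).le]
      simp only [hu]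
      field_simp
      ring
    rw [e]
    have hs1 : 0 < s ^ (σ - 1) := Real.rpow_pos_of_pos hs _
    exact add_pos_of_pos_of_nonneg (mul_pos hs1 (hpos _ hta))
      (mul_nonneg (mul_nonneg hs1.le hs.le) (hacc u hua))
  have hInt : IntegrableOn (fun s => ∑ j ∈ range n, ∑ k ∈ range n,
      C j k * (w j * w k) * Real.rpowIntegrand₀₁ σ s (t j)) (Set.Ioi 0) μ :=
    integrable_finsetSum _ (fun j hj => integrable_finsetSum _
      (fun k _ => (hint j (mem_range.1 hj)).const_mul _))
  have hform : ∑ j ∈ range n, ∑ k ∈ range n, t j ^ σ * C j k * (w j * w k) =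
      ∫ s in Set.Ioi 0, ∑ j ∈ range n, ∑ k ∈ range n,
        C j k * (w j * w k) * Real.rpowIntegrand₀₁ σ s (t j) ∂μ := by
    rw [integral_finsetSum _ (fun j hj => ?_)]
    · refine Finset.sum_congr rfl (fun j hj => ?_)
      rw [integral_finsetSum _ (fun k _ => ?_)]
      · refine Finset.sum_congr rfl (fun k _ => ?_)
        rw [integral_const_mul, ← hval j (mem_range.1 hj)]
        ring
      · exact (hint j (mem_range.1 hj)).const_mul _
    · exact integrable_finsetSum _ (fun k _ => (hint j (mem_range.1 hj)).const_mul _)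
  rw [hform]
  rw [integral_pos_iff_support_of_nonneg_ae]
  · -- the support is everything, the measure is not zero
    have hne : (μ.restrict (Set.Ioi 0)) Set.univ ≠ 0 := by
      intro h
      rw [Measure.measure_univ_eq_zero] at h
      have h2 := (hm 1 (by simp)).2
      rw [h, Real.one_rpow, integral_zero_measure] at h2
      exact one_ne_zero h2
    have hsupp : (Function.support (fun s => ∑ j ∈ range n, ∑ k ∈ range n,
        C j k * (w j * w k) * Real.rpowIntegrand₀₁ σ s (t j))) ∩ Set.Ioi 0 = Set.Ioi 0 := by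
      refine Set.inter_eq_right.2 (fun s hs => ?_)
      exact (hpt s hs).ne'
    have h3 : (μ.restrict (Set.Ioi 0)) (Function.support (fun s => ∑ j ∈ range n, ∑ k ∈ range n,
        C j k * (w j * w k) * Real.rpowIntegrand₀₁ σ s (t j))) =
        (μ.restrict (Set.Ioi 0)) Set.univ := by
      rw [Measure.restrict_apply' measurableSet_Ioi, hsupp,
        Measure.restrict_apply MeasurableSet.univ, Set.univ_inter]
    rw [h3]
    exact pos_iff_ne_zero.2 hne
  · filter_upwards [self_mem_ae_restrict (measurableSet_Ioi : MeasurableSet (Set.Ioi (0 : ℝ)))]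
      with s hs
    exact (hpt s hs).le
  · exact hInt

/-- **No double zeros** in the presence of a certificate. -/
theorem no_double {m n : ℕ} {a : ℕ → ℝ} {C : ℕ → ℕ → ℝ} (hC : Cert m n a C)
    (ha : ∀ k ≤ n, 0 < a k) {s : ℝ} (hs : (m : ℝ) - 1 < s) (hs' : s ≤ m) {x : ℝ} (hx : x < 0)
    (h0 : ∑ k ∈ range (n + 1), a k ^ s * x ^ k = 0)
    (h1 : ∑ k ∈ range (n + 1), (k : ℝ) * (a k ^ s * x ^ k) = 0) : False := by
  set y : ℕ → ℝ := fun k => a k ^ s * x ^ k with hy
  have hyalt : Alt (n + 1) y := by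
    intro k hk
    have h2 := Real.rpow_pos_of_pos (ha k (by omega)) s
    have h3 : (-1 : ℝ) ^ k * y k = a k ^ s * (-x) ^ k := by
      simp only [hy]
      rw [neg_pow x k]
      ring
    rw [h3]
    have : 0 < -x := by linarith
    positivity
  have hT : ∀ k < n, 0 < T a k := fun k hk => div_pos (ha k (by omega)) (ha (k + 1) (by omega))
  have h2 := hC.sup y hyalt h0 h1
  have h3 := rpow_accretive C (T a) hT hC.pos hC.acc (σ := (m : ℝ) - s) (by linarith)
    (by linarith) y (fun k hk => hyalt k (by omega))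
  have h4 : ∑ j ∈ range n, ∑ k ∈ range n, T a j ^ m * C j k * (y (j + 1) * y k) =
      x * ∑ j ∈ range n, ∑ k ∈ range n, T a j ^ ((m : ℝ) - s) * C j k * (y j * y k) := by
    simp only [Finset.mul_sum]
    refine Finset.sum_congr rfl (fun j hj => Finset.sum_congr rfl (fun k _ => ?_))
    have hj' : j < n := mem_range.1 hj
    have hTj := hT j hj'
    have hj1 := ha (j + 1) (by omega)
    have h5 : T a j ^ m * y (j + 1) = x * (T a j ^ ((m : ℝ) - s) * y j) := by
      have h6 : a j ^ s = T a j ^ s * a (j + 1) ^ s := by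
        rw [← Real.mul_rpow hTj.le hj1.le]
        congr 1
        unfold T
        field_simp
      have h7 : T a j ^ ((m : ℝ) - s) * T a j ^ s = T a j ^ m := by
        rw [← Real.rpow_add hTj, ← Real.rpow_natCast]
        congr 1
        ring
      simp only [hy]
      rw [h6, pow_succ, ← h7]
      ring
    calc T a j ^ m * C j k * (y (j + 1) * y k) = (T a j ^ m * y (j + 1)) * (C j k * y k) := by ring
      _ = _ := by rw [h5]; ring
  rw [h4] at h2
  nlinarith [h2, h3, hx]

lemma pf_mul {n : ℕ} {a b : ℕ → ℝ} (ha : PF n a) (hb : PF n b) : PF n (fun k => a k * b k) := by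
  refine ((ms_choose n le_rfl).apply (ha.comp hb)).congr (fun k hk => ?_)
  have := (choose_pos' hk).ne'
  rw [Real.rpow_one]
  field_simp

lemma pf_npow {n : ℕ} {b : ℕ → ℝ} (hb : PF n b) (N : ℕ) :
    PF n (fun k => b k ^ ((N : ℝ) + 1)) := by
  induction N with
  | zero => exact hb.congr (fun k _ => by simp)
  | succ N ih =>
    refine (pf_mul ih hb).congr (fun k hk => ?_)
    have h0 := hb.1 k hk
    push_cast
    rw [Real.rpow_add h0 ((N : ℝ) + 1) 1, Real.rpow_one]

/-- A certificate of base `m` gives `PF` for the exponents `m - 1 < s ≤ m`. -/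
theorem pf_of_cert {m n : ℕ} {a : ℕ → ℝ} {C : ℕ → ℕ → ℝ} (hm : 1 ≤ m) (hC : Cert m n a C)
    (ha : PF n a) {s : ℝ} (hs : (m : ℝ) - 1 < s) (hs' : s ≤ m) : PF n (fun k => a k ^ s) := by
  obtain ⟨N, rfl⟩ : ∃ N : ℕ, m = N + 1 := ⟨m - 1, by omega⟩
  have key := homotopy (n := n) (fun u k => a k ^ (((N + 1 : ℕ) : ℝ) - u)) (c := 0)
    (d := ((N + 1 : ℕ) : ℝ) - s) ?_ ?_ ?_ ?_ (((N + 1 : ℕ) : ℝ) - s) ⟨by linarith, le_rfl⟩
  · refine key.congr (fun k _ => ?_)
    beta_reduce
    congr 1
    ring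
  · intro k hk
    have h0 := ha.1 k hk
    exact ((Real.continuous_const_rpow h0.ne').comp
      (continuous_const.sub continuous_id)).continuousOn
  · intro u _ k hk
    exact Real.rpow_pos_of_pos (ha.1 k hk) _
  · refine (pf_npow ha N).congr (fun k _ => ?_)
    push_cast
    congr 1
    ring
  · intro u hu x hx h0 h1
    refine no_double hC ha.1 (s := ((N + 1 : ℕ) : ℝ) - u) ?_ ?_ hx h0 h1
    · linarith [hu.2]
    · linarith [hu.1]

/-- Existence of certificates of base `m` for all PF sequences (of the class) gives all real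
exponents `r ≥ m - 1`. -/
theorem pf_rpow_of_cert {m : ℕ} (hm : 2 ≤ m)
    (hex : ∀ (n : ℕ) (a : ℕ → ℝ), 1 ≤ n → PF n a → ∃ C, Cert m n a C)
    {n : ℕ} {a : ℕ → ℝ} (ha : PF n a) {r : ℝ} (hr : (m : ℝ) - 1 ≤ r) :
    PF n (fun k => a k ^ r) := by
  rcases Nat.eq_zero_or_pos n with h0 | hn
  · subst h0
    exact PF.zero (Real.rpow_pos_of_pos (ha.1 0 le_rfl) _)
  obtain ⟨C, hC⟩ := hex n a hn ha
  have hm' : (2 : ℝ) ≤ m := by exact_mod_cast hm
  rcases eq_or_lt_of_le hr with h | hr
  · obtain ⟨N, rfl⟩ : ∃ N : ℕ, m = N + 2 := ⟨m - 2, by omega⟩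
    refine (pf_npow ha N).congr (fun k _ => ?_)
    rw [← h]
    push_cast
    congr 1
    ring
  · -- `N` with `m - 1 < r - N ≤ m`
    obtain ⟨N, hN1, hN2⟩ : ∃ N : ℕ, (m : ℝ) - 1 < r - N ∧ r - N ≤ m := by
      refine ⟨⌈r - m⌉₊, ?_, ?_⟩
      · rcases le_or_gt (r - m) 0 with h | h
        · rw [Nat.ceil_eq_zero.2 h]
          simpa using hr
        · have := Nat.ceil_lt_add_one h.le
          linarith
      · have := Nat.le_ceil (r - m)
        linarith
    have key : ∀ N : ℕ, ∀ s : ℝ, (m : ℝ) - 1 < s → s ≤ m → PF n (fun k => a k ^ (s + N)) := by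
      intro N
      induction N with
      | zero =>
        intro s h1 h2
        simpa using pf_of_cert (by omega) hC ha h1 h2
      | succ N ih =>
        intro s h1 h2
        refine (pf_mul (ih s h1 h2) ha).congr (fun k hk => ?_)
        have h0 := ha.1 k hk
        push_cast
        rw [← add_assoc, Real.rpow_add h0 (s + N) 1, Real.rpow_one]
    refine (key N (r - N) hN1 hN2).congr (fun k _ => ?_)
    congr 1
    ring

end Pool.Agent.GM
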