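import Pool.Agent.GM.Cert

/-!
# GM.Main: the full classification from energy certificates
-/

open Polynomial Finset

namespace Pool.Agent.GM

open Pool.Agent.H62LR Pool.Agent.H49.RR Pool.Agent.H49.PowerForm Pool.Agent.H49.LeRoy

lemma realRooted_C_mul {p : ℝ[X]} {c : ℝ} (hc : c ≠ 0) (h : RealRooted (C c * p)) :
    RealRooted p := by
  rcases h with h | h
  · left
    rcases mul_eq_zero.1 h with h1 | h1
    · exact absurd (C_eq_zero.1 h1) hc
    · exact h1
  · right
    intro z hz
    refine h z ?_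
    rw [map_mul, hz, mul_zero]

lemma exponent_not_between {F : ℝ → ℝ} (hF : Preserves F) {c r : ℝ} (hc : 0 < c)
    (h : ∀ t, 0 ≤ t → F t = c * t ^ r) (h1 : 1 < r) (h2 : r < 2) : False := by
  refine no_realRooted h1 h2 (fun n hn => ?_)
  have hn' : (0 : ℝ) < n := by exact_mod_cast hn
  have h3 := hF _ (pplus_testPoly (c := 1) (ρ := 1 / (n : ℝ)) one_pos (by positivity) n)
  refine realRooted_C_mul (c := c) hc.ne' ?_
  have e : C c * appr r n = entrywise F (testPoly 1 (1 / (n : ℝ)) n) := by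
    ext k
    rw [coeff_C_mul]
    unfold appr
    rw [coeff_entrywise, coeff_entrywise]
    split_ifs with hk
    · rw [h _ (by rw [coeff_testPoly]; positivity)]
    · rw [mul_zero]
  rw [e]
  exact h3

/-- a power `c t ^ r` with `PF`-preserving exponent preserves real-rootedness -/
theorem preserves_of_pf {r : ℝ} (h : ∀ (n : ℕ) (a : ℕ → ℝ), PF n a → PF n (fun k => a k ^ r))
    {F : ℝ → ℝ} {c : ℝ} (hc : 0 < c) (hF : ∀ t, 0 ≤ t → F t = c * t ^ r) : Preserves F := by
  intro p hp
  have h1 := (h _ _ (pf_of_pplus hp)).const_mul hc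
  have h2 := h1.realRooted
  rw [entrywise_eq]
  have e : poly p.natDegree (fun k => F (p.coeff k)) =
      poly p.natDegree (fun k => c * p.coeff k ^ r) := by
    ext k
    rw [coeff_poly, coeff_poly]
    split_ifs with hk
    · exact hF _ (hp.1 k hk).le
    · rfl
  rw [e]
  exact h2

/-- The full classification, provided all powers `r ≥ 2` are known. -/
theorem classification_of_pf
    (h : ∀ (r : ℝ), 2 ≤ r → ∀ (n : ℕ) (a : ℕ → ℝ), PF n a → PF n (fun k => a k ^ r))
    (F : ℝ → ℝ) (hF0 : F 0 = 0) (hFnn : ∀ t, 0 ≤ t → 0 ≤ F t) :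
    Preserves F ↔ ((∀ t, 0 ≤ t → F t = 0) ∨
      ∃ c r : ℝ, 0 < c ∧ (r = 1 ∨ 2 ≤ r) ∧ ∀ t, 0 ≤ t → F t = c * t ^ r) := by
  constructor
  · intro hF
    rcases power_form F hF0 hFnn hF with h | ⟨c, r, hc, hr, h⟩
    · exact Or.inl h
    · refine Or.inr ⟨c, r, hc, ?_, h⟩
      rcases eq_or_lt_of_le hr with h1 | h1
      · exact Or.inl h1.symm
      · rcases lt_or_ge r 2 with h2 | h2
        · exact (exponent_not_between hF hc h h1 h2).elim
        · exact Or.inr h2
  · rintro (h0 | ⟨c, r, hc, hr, hF⟩)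
    · intro p hp
      left
      ext k
      rw [coeff_entrywise, coeff_zero]
      split_ifs with hk
      · exact h0 _ (hp.1 k hk).le
      · rfl
    · rcases hr with rfl | hr
      · refine preserves_of_pf (r := 1) (fun n a ha => ?_) hc hF
        exact ha.congr (fun k _ => (Real.rpow_one _).symm)
      · exact preserves_of_pf (h r hr) hc hF

/-- The full classification from energy certificates of base `3`. -/
theorem classification_of_cert
    (hex : ∀ (n : ℕ) (a : ℕ → ℝ), 1 ≤ n → PF n a → ∃ C, Cert 3 n a C)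
    (F : ℝ → ℝ) (hF0 : F 0 = 0) (hFnn : ∀ t, 0 ≤ t → 0 ≤ F t) :
    Preserves F ↔ ((∀ t, 0 ≤ t → F t = 0) ∨
      ∃ c r : ℝ, 0 < c ∧ (r = 1 ∨ 2 ≤ r) ∧ ∀ t, 0 ≤ t → F t = c * t ^ r) := by
  refine classification_of_pf (fun r hr n a ha => ?_) F hF0 hFnn
  refine pf_rpow_of_cert (m := 3) (by norm_num) hex ha ?_
  norm_num
  exact hr

end Pool.Agent.GM
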