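import Pool.Agent.GM.HadC
import Pool.Agent.GM.Main

/-!
# GM.FCert: certificates for `T00` (no common zero of `∑ (-X)^k a_k^r` and
`∑ (-X)^k a_k^{r-1} a_{k+1}`, `2 ≤ r ≤ 3`) and the full classification
-/

open Polynomial Finset Filter Topology MeasureTheory

namespace Pool.Agent.GM

open Pool.Agent.H62LR Pool.Agent.H49.RR

/-- Certificate: a kernel `F` on `{0,…,n-1}` (not necessarily symmetric) with `F + Fᵀ ≥ 0`,
`T F + Fᵀ T ≥ 0`, and `∑ F(j,k) (c_j / T_j) (T_k c_{k+1}) > 0` for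
`∑_{k ≤ n} c_k = ∑_{k < n} c_k / T_k = 0`; all for vectors with alternating signs only. -/
structure FCert (n : ℕ) (a : ℕ → ℝ) (F : ℕ → ℕ → ℝ) : Prop where
  nonneg : ∀ w : ℕ → ℝ, Alt n w → 0 ≤ ∑ j ∈ range n, ∑ k ∈ range n, F j k * (w j * w k)
  acc : ∀ w : ℕ → ℝ, Alt n w → 0 ≤ ∑ j ∈ range n, ∑ k ∈ range n, T a j * F j k * (w j * w k)
  sup : ∀ c : ℕ → ℝ, Alt (n + 1) c → ∑ k ∈ range (n + 1), c k = 0 →
    ∑ k ∈ range n, c k / T a k = 0 →
    0 < ∑ j ∈ range n, ∑ k ∈ range n, F j k * (c j / T a j) * (T a k * c (k + 1))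

/-- Fractional powers, weak form. -/
lemma rpow_accretive_weak {n : ℕ} (C : ℕ → ℕ → ℝ) (t : ℕ → ℝ) (ht : ∀ k < n, 0 < t k)
    (hpos : ∀ w : ℕ → ℝ, Alt n w → 0 ≤ ∑ j ∈ range n, ∑ k ∈ range n, C j k * (w j * w k))
    (hacc : ∀ w : ℕ → ℝ, Alt n w →
      0 ≤ ∑ j ∈ range n, ∑ k ∈ range n, t j * C j k * (w j * w k))
    {σ : ℝ} (h0 : 0 ≤ σ) (h1 : σ ≤ 1) (w : ℕ → ℝ) (hw : Alt n w) :
    0 ≤ ∑ j ∈ range n, ∑ k ∈ range n, t j ^ σ * C j k * (w j * w k) := by
  rcases eq_or_lt_of_le h0 with h | h0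
  · subst h
    simpa only [Real.rpow_zero, one_mul] using hpos w hw
  rcases eq_or_lt_of_le h1 with h | h1
  · subst h
    simpa only [Real.rpow_one] using hacc w hw
  obtain ⟨μ, hm⟩ := Real.exists_measure_rpow_eq_integral_rpowIntegrand₀₁ ⟨h0, h1⟩
  have hint : ∀ j < n, IntegrableOn (fun s => Real.rpowIntegrand₀₁ σ s (t j))
      (Set.Ioi 0) μ := fun j hj => (hm _ (Set.mem_Ici.2 (ht j hj).le)).1
  have hval : ∀ j < n, t j ^ σ = ∫ s in Set.Ioi 0, Real.rpowIntegrand₀₁ σ s (t j) ∂μ :=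
    fun j hj => (hm _ (Set.mem_Ici.2 (ht j hj).le)).2
  have hpt : ∀ s : ℝ, 0 < s → 0 ≤ ∑ j ∈ range n, ∑ k ∈ range n,
      C j k * (w j * w k) * Real.rpowIntegrand₀₁ σ s (t j) := by
    intro s hs
    set u : ℕ → ℝ := fun k => w k / (s + t k) with hu
    have hst : ∀ k < n, 0 < s + t k := fun k hk => add_pos hs (ht k hk)
    have hua : Alt n u := by
      intro k hk
      have := div_pos (hw k hk) (hst k hk)
      rw [mul_div_assoc] at this
      exact this
    have hta : Alt n (fun k => t k * u k) := by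
      intro k hk
      have := mul_pos (ht k hk) (hua k hk)
      calc (0 : ℝ) < t k * ((-1 : ℝ) ^ k * u k) := this
        _ = (-1 : ℝ) ^ k * (t k * u k) := by ring
    have e : ∑ j ∈ range n, ∑ k ∈ range n,
        C j k * (w j * w k) * Real.rpowIntegrand₀₁ σ s (t j) =
        s ^ (σ - 1) * (∑ j ∈ range n, ∑ k ∈ range n,
            C j k * ((fun k => t k * u k) j * (fun k => t k * u k) k)) +
          s ^ (σ - 1) * s * (∑ j ∈ range n, ∑ k ∈ range n, t j * C j k * (u j * u k)) := by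
      simp only [Finset.mul_sum, ← Finset.sum_add_distrib]
      refine Finset.sum_congr rfl (fun j hj => Finset.sum_congr rfl (fun k hk => ?_))
      have hj' := hst j (mem_range.1 hj)
      have hk' := hst k (mem_range.1 hk)
      rw [Real.rpowIntegrand₀₁_eq_pow_div ⟨h0, h1⟩ hs.le (ht j (mem_range.1 hj)).le]
      simp only [hu]
      field_simp
      ring
    rw [e]
    have hs1 : 0 < s ^ (σ - 1) := Real.rpow_pos_of_pos hs _
    exact add_nonneg (mul_nonneg hs1.le (hpos _ hta))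
      (mul_nonneg (mul_nonneg hs1.le hs.le) (hacc u hua))
  have hform : ∑ j ∈ range n, ∑ k ∈ range n, t j ^ σ * C j k * (w j * w k) =
      ∫ s in Set.Ioi 0, ∑ j ∈ range n, ∑ k ∈ range n,
        C j k * (w j * w k) * Real.rpowIntegrand₀₁ σ s (t j) ∂μ := by
    rw [integral_finsetSum _ (fun j hj => ?_)]
    · refine Finset.sum_congr rfl (fun j hj => ?_)
      rw [integral_finsetSum _ (fun k _ => ?_)]
      · refine Finset.sum_congr rfl (fun k _ => ?_)
        rw [integral_const_mul, ← hval j (mem_range.1 hj)]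
        ring
      · exact (hint j (mem_range.1 hj)).const_mul _
    · exact integrable_finsetSum _ (fun k _ => (hint j (mem_range.1 hj)).const_mul _)
  rw [hform]
  exact setIntegral_nonneg measurableSet_Ioi (fun s hs => hpt s hs)

/-- **T00**: no common zero. -/
theorem no_common {n : ℕ} {a : ℕ → ℝ} {F : ℕ → ℕ → ℝ} (hF : FCert n a F)
    (ha : ∀ k ≤ n, 0 < a k) {r : ℝ} (hr : 2 ≤ r) (hr' : r ≤ 3) {X : ℝ} (hX : 0 < X)
    (h0 : ∑ k ∈ range (n + 1), a k ^ r * (-X) ^ k = 0)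
    (h1 : ∑ k ∈ range n, a k ^ (r - 1) * a (k + 1) * (-X) ^ k = 0) : False := by
  have hT : ∀ k < n, 0 < T a k := fun k hk => div_pos (ha k (by omega)) (ha (k + 1) (by omega))
  set c : ℕ → ℝ := fun k => a k ^ r * (-X) ^ k with hc
  set w : ℕ → ℝ := fun k => a k * a (k + 1) ^ (r - 1) * (-X) ^ k with hw
  have hsgn : ∀ k : ℕ, (-1 : ℝ) ^ k * (-X) ^ k = X ^ k := by
    intro k
    rw [← mul_pow]
    congr 1
    ring
  have hcalt : Alt (n + 1) c := by
    intro k hk
    have h2 := Real.rpow_pos_of_pos (ha k (by omega)) r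
    have h3 : (-1 : ℝ) ^ k * c k = a k ^ r * X ^ k := by
      rw [← hsgn k]
      simp only [hc]
      ring
    rw [h3]
    positivity
  have hwalt : Alt n w := by
    intro k hk
    have h2 := Real.rpow_pos_of_pos (ha (k + 1) (by omega)) (r - 1)
    have h4 := ha k (by omega)
    have h3 : (-1 : ℝ) ^ k * w k = a k * a (k + 1) ^ (r - 1) * X ^ k := by
      rw [← hsgn k]
      simp only [hw]
      ring
    rw [h3]
    positivity
  have e1 : ∀ k < n, c k / T a k = a k ^ (r - 1) * a (k + 1) * (-X) ^ k := by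
    intro k hk
    have hk0 := ha k (by omega)
    have hk1 := ha (k + 1) (by omega)
    have h2 : a k ^ r = a k ^ (r - 1) * a k := by
      have := Real.rpow_add hk0 (r - 1) 1
      rw [Real.rpow_one] at this
      rw [← this]
      congr 1
      ring
    simp only [hc, T]
    rw [h2]
    field_simp
  have e2 : ∀ k < n, c k / T a k = T a k ^ (r - 2) * w k := by
    intro k hk
    have hk0 := ha k (by omega)
    have hk1 := ha (k + 1) (by omega)
    rw [e1 k hk]
    simp only [hw, T]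
    rw [Real.div_rpow hk0.le hk1.le]
    have h2 : a k ^ (r - 1) = a k ^ (r - 2) * a k := by
      have := Real.rpow_add hk0 (r - 2) 1
      rw [Real.rpow_one] at this
      rw [← this]
      congr 1
      ring
    have h3 : a (k + 1) ^ (r - 1) = a (k + 1) ^ (r - 2) * a (k + 1) := by
      have := Real.rpow_add hk1 (r - 2) 1
      rw [Real.rpow_one] at this
      rw [← this]
      congr 1
      ring
    have h4 := (Real.rpow_pos_of_pos hk1 (r - 2)).ne'
    rw [h2, h3]
    field_simp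
  have e3 : ∀ k < n, T a k * c (k + 1) = -X * w k := by
    intro k hk
    have hk0 := ha k (by omega)
    have hk1 := ha (k + 1) (by omega)
    have h3 : a (k + 1) ^ r = a (k + 1) ^ (r - 1) * a (k + 1) := by
      have := Real.rpow_add hk1 (r - 1) 1
      rw [Real.rpow_one] at this
      rw [← this]
      congr 1
      ring
    simp only [hc, hw, T]
    rw [h3, pow_succ]
    field_simp
  have h2 := hF.sup c hcalt h0 (by
    rw [← h1]
    exact Finset.sum_congr rfl (fun k hk => e1 k (mem_range.1 hk)))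
  have h3 := rpow_accretive_weak F (T a) hT hF.nonneg hF.acc (σ := r - 2) (by linarith)
    (by linarith) w hwalt
  have h4 : ∑ j ∈ range n, ∑ k ∈ range n, F j k * (c j / T a j) * (T a k * c (k + 1)) =
      -X * ∑ j ∈ range n, ∑ k ∈ range n, T a j ^ (r - 2) * F j k * (w j * w k) := by
    simp only [Finset.mul_sum]
    refine Finset.sum_congr rfl (fun j hj => Finset.sum_congr rfl (fun k hk => ?_))
    rw [e2 j (mem_range.1 hj), e3 k (mem_range.1 hk)]
    ring
  rw [h4] at h2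
  nlinarith

/-- `T00` for all exponents in `[2,3]` gives `PF` for these exponents. -/
theorem pf_of_no_common {n : ℕ} {a : ℕ → ℝ} (ha : PF n a)
    (hT : ∀ r : ℝ, 2 ≤ r → r ≤ 3 → ∀ X : ℝ, 0 < X →
      ∑ k ∈ range (n + 1), a k ^ r * (-X) ^ k = 0 →
      ∑ k ∈ range n, a k ^ (r - 1) * a (k + 1) * (-X) ^ k = 0 → False)
    {r : ℝ} (hr : 2 ≤ r) (hr' : r ≤ 3) : PF n (fun k => a k ^ r) := by
  rcases Nat.eq_zero_or_pos n with h0 | hn
  · subst h0
    exact PF.zero (Real.rpow_pos_of_pos (ha.1 0 le_rfl) _)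
  have hax : ∀ s ∈ Set.Icc (2 : ℝ) 3, ∀ y : ℝ,
      ev (2 * n) (hco a s) ((y : ℂ) * Complex.I) ≠ 0 := by
    intro s hs y h0
    rw [ev_split] at h0
    have hsq : ((y : ℂ) * Complex.I) ^ 2 = ((-(y ^ 2) : ℝ) : ℂ) := by
      rw [mul_pow, Complex.I_sq]
      push_cast
      ring
    rw [hsq] at h0
    have h2 : ((∑ k ∈ range (n + 1), hco a s (2 * k) * (-(y ^ 2)) ^ k : ℝ) : ℂ) +
        ((y * ∑ k ∈ range n, hco a s (2 * k + 1) * (-(y ^ 2)) ^ k : ℝ) : ℂ) * Complex.I = 0 := by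
      rw [← h0]
      push_cast
      ring
    have hre := congrArg Complex.re h2
    have him := congrArg Complex.im h2
    simp only [Complex.add_re, Complex.ofReal_re, Complex.mul_re, Complex.I_re, mul_zero,
      Complex.ofReal_im, Complex.I_im, mul_one, sub_self, add_zero, Complex.zero_re] at hre
    simp only [Complex.add_im, Complex.ofReal_im, Complex.mul_im, Complex.ofReal_re,
      Complex.I_im, mul_one, Complex.I_re, mul_zero, add_zero, zero_add, Complex.zero_im] at him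
    rcases eq_or_ne y 0 with hy | hy
    · subst hy
      rw [Finset.sum_range_succ'] at hre
      have h3 : ∑ k ∈ range n, hco a s (2 * (k + 1)) * (-((0 : ℝ) ^ 2)) ^ (k + 1) = 0 :=
        Finset.sum_eq_zero (fun k _ => by simp)
      rw [h3] at hre
      have := hco_pos ha.1 s (j := 2 * 0) (by omega)
      simp only [zero_add, pow_zero, mul_one] at hre
      linarith
    · have hy2 : 0 < y ^ 2 := by positivity
      refine hT s hs.1 hs.2 (y ^ 2) hy2 ?_ ?_
      · rw [← hre]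
        refine Finset.sum_congr rfl (fun k hk => ?_)
        rw [hco_even (ha.1 k (by simpa [Nat.lt_succ_iff] using hk))]
      · have h3 := (mul_eq_zero.1 him).resolve_left hy
        rw [← h3]
        refine Finset.sum_congr rfl (fun k _ => ?_)
        rw [hco_odd]
  have hcont : ∀ k ≤ 2 * n, Continuous (fun s => hco a s k) := by
    intro k hk
    unfold hco
    have h1 := ha.1 (k / 2) (by omega)
    exact ((Real.continuous_const_rpow h1.ne').comp (continuous_id.sub continuous_const)).mul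
      continuous_const
  have hH := homotopyH (N := 2 * n) (fun s => hco a s) hcont
    (fun s k hk => hco_pos ha.1 s hk) (c := 2) (d := 3) (hur_two ha) hax r ⟨hr, hr'⟩
  refine ⟨fun k hk => Real.rpow_pos_of_pos (ha.1 k hk) _, fun z hz => ?_⟩
  have h1 := even_part_ne_zero hn hH (hax r ⟨hr, hr'⟩) hz
  rwa [ev_congr (b := fun k => a k ^ r) (fun k hk => hco_even (ha.1 k hk) r)] at h1

/-- `T00` for all PF sequences and all exponents in `[2,3]` gives all real `r ≥ 2`. -/
theorem pf_rpow_of_no_common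
    (hT : ∀ (n : ℕ) (a : ℕ → ℝ), PF n a → ∀ r : ℝ, 2 ≤ r → r ≤ 3 → ∀ X : ℝ, 0 < X →
      ∑ k ∈ range (n + 1), a k ^ r * (-X) ^ k = 0 →
      ∑ k ∈ range n, a k ^ (r - 1) * a (k + 1) * (-X) ^ k = 0 → False)
    {n : ℕ} {a : ℕ → ℝ} (ha : PF n a) {r : ℝ} (hr : 2 ≤ r) : PF n (fun k => a k ^ r) := by
  have key : ∀ N : ℕ, ∀ s : ℝ, 2 ≤ s → s ≤ 3 → PF n (fun k => a k ^ (s + N)) := by
    intro N
    induction N with
    | zero =>
      intro s h1 h2
      simpa using pf_of_no_common ha (hT n a ha) h1 h2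
    | succ N ih =>
      intro s h1 h2
      refine (pf_mul (ih s h1 h2) ha).congr (fun k hk => ?_)
      have h0 := ha.1 k hk
      push_cast
      rw [← add_assoc, Real.rpow_add h0 (s + N) 1, Real.rpow_one]
  have h1 : (⌊r - 2⌋₊ : ℝ) ≤ r - 2 := Nat.floor_le (by linarith)
  have h2 := Nat.lt_floor_add_one (r - 2)
  refine (key ⌊r - 2⌋₊ (r - ⌊r - 2⌋₊) (by linarith) (by linarith)).congr (fun k _ => ?_)
  congr 1
  ring

/-- **Full classification from `T00`.** -/
theorem classification_of_no_common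
    (hT : ∀ (n : ℕ) (a : ℕ → ℝ), PF n a → ∀ r : ℝ, 2 ≤ r → r ≤ 3 → ∀ X : ℝ, 0 < X →
      ∑ k ∈ range (n + 1), a k ^ r * (-X) ^ k = 0 →
      ∑ k ∈ range n, a k ^ (r - 1) * a (k + 1) * (-X) ^ k = 0 → False)
    (F : ℝ → ℝ) (hF0 : F 0 = 0) (hFnn : ∀ t, 0 ≤ t → 0 ≤ F t) :
    Preserves F ↔ ((∀ t, 0 ≤ t → F t = 0) ∨
      ∃ c r : ℝ, 0 < c ∧ (r = 1 ∨ 2 ≤ r) ∧ ∀ t, 0 ≤ t → F t = c * t ^ r) :=
  classification_of_pf (fun _ hr _ _ ha => pf_rpow_of_no_common hT ha hr) F hF0 hFnn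

/-- **Full classification from `F`-certificates.** -/
theorem classification_of_fcert
    (hex : ∀ (n : ℕ) (a : ℕ → ℝ), 1 ≤ n → PF n a → ∃ K, FCert n a K)
    (F : ℝ → ℝ) (hF0 : F 0 = 0) (hFnn : ∀ t, 0 ≤ t → 0 ≤ F t) :
    Preserves F ↔ ((∀ t, 0 ≤ t → F t = 0) ∨
      ∃ c r : ℝ, 0 < c ∧ (r = 1 ∨ 2 ≤ r) ∧ ∀ t, 0 ≤ t → F t = c * t ^ r) := by
  refine classification_of_no_common (fun n a ha r h2 h3 X hX h0 h1 => ?_) F hF0 hFnn
  rcases Nat.eq_zero_or_pos n with hn | hn
  · subst hn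
    simp only [zero_add, Finset.sum_range_one, pow_zero, mul_one] at h0
    exact (Real.rpow_pos_of_pos (ha.1 0 le_rfl) r).ne' h0
  · obtain ⟨K, hK⟩ := hex n a hn ha
    exact no_common hK ha.1 h2 h3 hX h0 h1

/-- helper40's form: `P > 0` on all alternating vectors. -/
lemma sup_of_P {n : ℕ} {a : ℕ → ℝ} {F : ℕ → ℕ → ℝ}
    (hP : ∀ c : ℕ → ℝ, Alt (n + 1) c → 0 < (∑ k ∈ range (n + 1), c k) ^ 2 -
      ∑ j ∈ range n, ∑ k ∈ range n, (1 - F j k) * (c j / T a j) * (T a k * c (k + 1)))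
    (c : ℕ → ℝ) (hc : Alt (n + 1) c) (h0 : ∑ k ∈ range (n + 1), c k = 0)
    (h1 : ∑ k ∈ range n, c k / T a k = 0) :
    0 < ∑ j ∈ range n, ∑ k ∈ range n, F j k * (c j / T a j) * (T a k * c (k + 1)) := by
  have h2 := hP c hc
  rw [h0] at h2
  have h3 : ∑ j ∈ range n, ∑ k ∈ range n, (1 - F j k) * (c j / T a j) * (T a k * c (k + 1)) =
      (∑ j ∈ range n, c j / T a j) * (∑ k ∈ range n, T a k * c (k + 1)) -
      ∑ j ∈ range n, ∑ k ∈ range n, F j k * (c j / T a j) * (T a k * c (k + 1)) := by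
    rw [Finset.sum_mul_sum, ← Finset.sum_sub_distrib]
    refine Finset.sum_congr rfl (fun j _ => ?_)
    rw [← Finset.sum_sub_distrib]
    refine Finset.sum_congr rfl (fun k _ => ?_)
    ring
  rw [h3, h1] at h2
  linarith

end Pool.Agent.GM
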