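import Mathlib
import Pool.Agent.H62LR.Homotopy

/-!
# GM.Hurwitz: homotopy principle and Hermite–Biehler for Hurwitz polynomials
-/

open Polynomial Finset Filter Topology

namespace Pool.Agent.GM

open Pool.Agent.H62LR

/-- positive coefficients and no zero in the open right half plane -/
def Hur (N : ℕ) (h : ℕ → ℝ) : Prop := (∀ k ≤ N, 0 < h k) ∧ ∀ z : ℂ, 0 < z.re → ev N h z ≠ 0

/-- the complex polynomial -/
noncomputable def polyC (N : ℕ) (h : ℕ → ℝ) : ℂ[X] := (poly N h).map (algebraMap ℝ ℂ)

lemma eval_polyC (N : ℕ) (h : ℕ → ℝ) (z : ℂ) : (polyC N h).eval z = ev N h z := by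
  rw [polyC, eval_map_algebraMap, aeval_poly]

lemma natDegree_polyC {N : ℕ} {h : ℕ → ℝ} (hN : h N ≠ 0) : (polyC N h).natDegree = N := by
  rw [polyC, natDegree_map, natDegree_poly hN]

lemma leadingCoeff_polyC {N : ℕ} {h : ℕ → ℝ} (hN : h N ≠ 0) :
    (polyC N h).leadingCoeff = (h N : ℂ) := by
  rw [leadingCoeff, natDegree_polyC hN, polyC, coeff_map, coeff_poly, if_pos le_rfl]
  rfl

/-- factorisation over `ℂ` -/
lemma norm_eval_C (P : ℂ[X]) (z : ℂ) :
    ‖P.eval z‖ = ‖P.leadingCoeff‖ * (P.roots.map (fun w => ‖z - w‖)).prod := by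
  have hs := IsAlgClosed.splits P
  have key : ∀ m : Multiset ℂ, ‖((m.map (fun w => X - C w)).prod : ℂ[X]).eval z‖ =
      (m.map (fun w => ‖z - w‖)).prod := by
    intro m
    induction m using Multiset.induction_on with
    | empty => simp
    | cons w m ih =>
      rw [Multiset.map_cons, Multiset.prod_cons, eval_mul, norm_mul, ih, Multiset.map_cons,
        Multiset.prod_cons]
      simp
  conv_lhs => rw [hs.eq_prod_roots]
  rw [eval_mul, eval_C, norm_mul, key]

lemma Hur.lower {N : ℕ} {h : ℕ → ℝ} (hh : Hur N h) {z : ℂ} (hz : 0 < z.re) :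
    h N * z.re ^ N ≤ ‖ev N h z‖ := by
  have hN := hh.1 N le_rfl
  rw [← eval_polyC, norm_eval_C, leadingCoeff_polyC hN.ne', Complex.norm_real,
    Real.norm_of_nonneg hN.le]
  have hcard : Multiset.card (polyC N h).roots = N := by
    rw [← (IsAlgClosed.splits (polyC N h)).natDegree_eq_card_roots, natDegree_polyC hN.ne']
  have hP0 : polyC N h ≠ 0 := by
    intro h1
    have := leadingCoeff_polyC hN.ne'
    rw [h1, leadingCoeff_zero] at this
    have : h N = 0 := by exact_mod_cast this.symm
    exact hN.ne' this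
  have hroots : ∀ w ∈ (polyC N h).roots, w.re ≤ 0 := by
    intro w hw
    rw [mem_roots hP0, IsRoot.def, eval_polyC] at hw
    by_contra hc
    exact hh.2 w (not_le.1 hc) hw
  refine mul_le_mul_of_nonneg_left ?_ hN.le
  have key : ∀ m : Multiset ℂ, (∀ w ∈ m, w.re ≤ 0) →
      z.re ^ (Multiset.card m) ≤ (m.map (fun w => ‖z - w‖)).prod := by
    intro m
    induction m using Multiset.induction_on with
    | empty => intro _; simp
    | cons w m ih =>
      intro hm
      rw [Multiset.card_cons, pow_succ, Multiset.map_cons, Multiset.prod_cons, mul_comm]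
      have h1 : z.re ≤ ‖z - w‖ := by
        refine le_trans ?_ (Complex.re_le_norm _)
        rw [Complex.sub_re]
        linarith [hm w (Multiset.mem_cons_self _ _)]
      exact mul_le_mul h1 (ih (fun x hx => hm x (Multiset.mem_cons_of_mem hx)))
        (pow_nonneg hz.le _) (norm_nonneg _)
  have := key _ hroots
  rwa [hcard] at this

/-- bound for the zeros -/
lemma root_bound {N : ℕ} {h : ℕ → ℝ} (hpos : ∀ k ≤ N, 0 < h k) {z : ℂ} (hz : ev N h z = 0) :
    ‖z‖ ≤ 1 + (∑ k ∈ range N, h k) / h N := by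
  have hN := hpos N le_rfl
  have hS : 0 ≤ ∑ k ∈ range N, h k :=
    Finset.sum_nonneg (fun k hk => (hpos k (mem_range.1 hk).le).le)
  by_contra hc
  push Not at hc
  have h1 : 1 < ‖z‖ := by
    have : 0 ≤ (∑ k ∈ range N, h k) / h N := div_nonneg hS hN.le
    linarith
  unfold ev at hz
  rw [Finset.sum_range_succ] at hz
  have h2 : (h N : ℂ) * z ^ N = -∑ k ∈ range N, (h k : ℂ) * z ^ k := by linear_combination hz
  have h3 : h N * ‖z‖ ^ N ≤ (∑ k ∈ range N, h k) * ‖z‖ ^ (N - 1) := by
    have h4 := congrArg norm h2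
    rw [norm_mul, norm_neg, norm_pow, Complex.norm_real, Real.norm_of_nonneg hN.le] at h4
    rw [h4, Finset.sum_mul]
    refine (norm_sum_le _ _).trans (Finset.sum_le_sum (fun k hk => ?_))
    have hk' := mem_range.1 hk
    rw [norm_mul, norm_pow, Complex.norm_real, Real.norm_of_nonneg (hpos k hk'.le).le]
    exact mul_le_mul_of_nonneg_left (pow_le_pow_right₀ h1.le (by omega)) (hpos k hk'.le).le
  rcases Nat.eq_zero_or_pos N with h0 | h0
  · subst h0
    simp only [range_zero, sum_empty, pow_zero, mul_one, zero_mul] at h3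
    linarith
  · obtain ⟨M, rfl⟩ : ∃ M, N = M + 1 := ⟨N - 1, by omega⟩
    rw [Nat.add_sub_cancel, pow_succ] at h3
    have h5 : 0 < ‖z‖ ^ M := by positivity
    have h6 : h (M + 1) * ‖z‖ ≤ ∑ k ∈ range (M + 1), h k := by
      by_contra h7
      push Not at h7
      have := mul_lt_mul_of_pos_right h7 h5
      nlinarith
    have h7 : ‖z‖ ≤ (∑ k ∈ range (M + 1), h k) / h (M + 1) := by
      rw [le_div_iff₀ hN]
      linarith
    linarith

/-- **Homotopy principle** for the right half plane. -/
theorem homotopyH {N : ℕ} (h : ℝ → ℕ → ℝ) {c d : ℝ}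
    (hcont : ∀ k ≤ N, Continuous (fun s => h s k))
    (hpos : ∀ s, ∀ k ≤ N, 0 < h s k) (h0 : Hur N (h c))
    (hax : ∀ s ∈ Set.Icc c d, ∀ y : ℝ, ev N (h s) ((y : ℂ) * Complex.I) ≠ 0) :
    ∀ s ∈ Set.Icc c d, Hur N (h s) := by
  have hevc : Continuous (fun q : ℝ × ℂ => ev N (h q.1) q.2) := by
    unfold ev
    refine continuous_finset_sum _ (fun k hk => ?_)
    have hk' : k ≤ N := by simpa [Nat.lt_succ_iff] using hk
    exact (Complex.continuous_ofReal.comp ((hcont k hk').comp continuous_fst)).mul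
      (continuous_snd.pow k)
  set S : Set ℝ := {s | s ∈ Set.Icc c d → Hur N (h s)} with hS
  suffices h1 : Set.Icc c d ⊆ S from fun s hs => h1 hs hs
  refine IsClosed.Icc_subset_of_forall_mem_nhdsWithin ?_ (fun _ => h0) ?_
  · -- closed
    have e : S ∩ Set.Icc c d = ⋂ z : {z : ℂ // 0 < z.re},
        (Set.Icc c d ∩ {s | h s N * z.1.re ^ N ≤ ‖ev N (h s) z.1‖}) := by
      ext s
      simp only [Set.mem_inter_iff, Set.mem_iInter, Set.mem_setOf_eq]
      constructor
      · rintro ⟨h1, h2⟩ z
        exact ⟨h2, (h1 h2).lower z.2⟩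
      · intro hz
        have hs := (hz ⟨1, by simp⟩).1
        refine ⟨fun _ => ⟨fun k hk => hpos s k hk, fun z hz' h1 => ?_⟩, hs⟩
        have h2 := (hz ⟨z, hz'⟩).2
        rw [h1, norm_zero] at h2
        have h3 := mul_pos (hpos s N le_rfl) (pow_pos hz' N)
        exact absurd h2 (not_le.2 h3)
    rw [e]
    refine isClosed_iInter (fun z => isClosed_Icc.inter ?_)
    refine isClosed_le ((hcont N le_rfl).mul continuous_const) ?_
    exact (hevc.comp (continuous_id.prodMk continuous_const)).norm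
  · rintro s0 ⟨hs0, hs0'⟩
    have hs0c : s0 ∈ Set.Icc c d := ⟨hs0'.1, hs0'.2.le⟩
    have hH := hs0 hs0c
    -- root bound function
    set B : ℝ → ℝ := fun s => 1 + (∑ k ∈ range N, h s k) / h s N with hB
    have hBc : Continuous B := by
      refine continuous_const.add (Continuous.div ?_ (hcont N le_rfl) (fun s => (hpos s N le_rfl).ne'))
      exact continuous_finset_sum _ (fun k hk => hcont k (mem_range.1 hk).le)
    have hB1 : ∀ᶠ s in 𝓝 s0, B s < B s0 + 1 :=
      (hBc.tendsto s0).eventually (eventually_lt_nhds (by linarith))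
    set K : Set ℂ := Metric.closedBall (0 : ℂ) (B s0 + 1) ∩ {z | 0 ≤ z.re} with hK
    have hKc : IsCompact K :=
      (isCompact_closedBall _ _).inter_right (isClosed_le continuous_const Complex.continuous_re)
    have hnz : ∀ z ∈ K, ev N (h s0) z ≠ 0 := by
      intro z hz
      have hz2 : 0 ≤ z.re := hz.2
      rcases eq_or_lt_of_le hz2 with h1 | h1
      · have e : z = ((z.im : ℝ) : ℂ) * Complex.I := by
          apply Complex.ext
          · simp [← h1]
          · simp
        rw [e]
        exact hax s0 hs0c _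
      · exact hH.2 z h1
    have hev : ∀ᶠ s in 𝓝 s0, ∀ z ∈ K, ev N (h s) z ≠ 0 := by
      refine hKc.eventually_forall_of_forall_eventually (fun z hz => ?_)
      have h1 := hevc.continuousAt (x := (s0, z))
      exact h1.eventually_ne (hnz z hz)
    refine nhdsWithin_le_nhds ?_
    filter_upwards [hB1, hev] with s h1 h2 _
    refine ⟨fun k hk => hpos s k hk, fun z hz h3 => ?_⟩
    refine h2 z ⟨?_, hz.le⟩ h3
    rw [Metric.mem_closedBall, dist_zero_right]
    exact (root_bound (hpos s) h3).trans h1.le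

/-- **Hermite–Biehler**, easy direction: if the polynomial has no zero in the closed right half
plane, its even part has no zero in the upper half plane. -/
theorem even_part_ne_zero {n : ℕ} {h : ℕ → ℝ} (hn : 1 ≤ n) (hh : Hur (2 * n) h)
    (hax : ∀ y : ℝ, ev (2 * n) h ((y : ℂ) * Complex.I) ≠ 0) {w : ℂ} (hw : 0 < w.im) :
    ev n (fun k => h (2 * k)) w ≠ 0 := by
  intro h0
  -- square root with positive real part
  obtain ⟨z, hz2, hzre⟩ : ∃ z : ℂ, z ^ 2 = w ∧ 0 < z.re := by
    obtain ⟨z, hz⟩ := IsAlgClosed.exists_pow_nat_eq w (n := 2) (by norm_num)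
    have hre : z.re ≠ 0 := by
      intro h1
      rw [← hz, pow_two, Complex.mul_im, h1] at hw
      simp at hw
    rcases lt_or_gt_of_ne hre with h1 | h1
    · exact ⟨-z, by rw [neg_sq, hz], by simpa using h1⟩
    · exact ⟨z, hz, h1⟩
  have hsplit : ev (2 * n) h z + ev (2 * n) h (-z) = 2 * ev n (fun k => h (2 * k)) w := by
    have key : ∀ m : ℕ, ∑ k ∈ range (2 * m + 1), (h k : ℂ) * z ^ k +
        ∑ k ∈ range (2 * m + 1), (h k : ℂ) * (-z) ^ k =
        2 * ∑ k ∈ range (m + 1), (h (2 * k) : ℂ) * w ^ k := by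
      intro m
      induction m with
      | zero => simp; ring
      | succ m ih =>
        have e1 : 2 * (m + 1) + 1 = 2 * m + 1 + 1 + 1 := by ring
        rw [e1, Finset.sum_range_succ, Finset.sum_range_succ, Finset.sum_range_succ _ (2 * m + 1 + 1),
          Finset.sum_range_succ _ (2 * m + 1), Finset.sum_range_succ _ (m + 1)]
        have e2 : 2 * m + 1 + 1 = 2 * (m + 1) := by ring
        have o1 : (-z) ^ (2 * m + 1) = -z ^ (2 * m + 1) := Odd.neg_pow ⟨m, rfl⟩ z
        have o2 : (-z) ^ (2 * m + 1 + 1) = z ^ (2 * m + 1 + 1) :=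
          Even.neg_pow ⟨m + 1, by ring⟩ z
        have o3 : z ^ (2 * m + 1 + 1) = w ^ (m + 1) := by rw [e2, pow_mul, hz2]
        rw [o1, o2, o3, e2]
        linear_combination ih
    exact key n
  rw [h0, mul_zero] at hsplit
  have hN := hh.1 (2 * n) le_rfl
  set P := polyC (2 * n) h with hP
  have hlead : P.leadingCoeff = (h (2 * n) : ℂ) := leadingCoeff_polyC hN.ne'
  have hP0 : P ≠ 0 := by
    intro h1
    rw [h1, leadingCoeff_zero] at hlead
    exact hN.ne' (by exact_mod_cast hlead.symm)
  have hcard : Multiset.card P.roots = 2 * n := by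
    rw [← (IsAlgClosed.splits P).natDegree_eq_card_roots, hP, natDegree_polyC hN.ne']
  have hroots : ∀ x ∈ P.roots, x.re < 0 := by
    intro x hx
    rw [mem_roots hP0, IsRoot.def, hP, eval_polyC] at hx
    by_contra hc
    push Not at hc
    rcases eq_or_lt_of_le hc with h1 | h1
    · have e : x = ((x.im : ℝ) : ℂ) * Complex.I := by
        apply Complex.ext
        · simp [← h1]
        · simp
      rw [e] at hx
      exact hax _ hx
    · exact hh.2 x h1 hx
  have h1 : ‖ev (2 * n) h z‖ = ‖ev (2 * n) h (-(starRingEnd ℂ) z)‖ := by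
    have e1 : ev (2 * n) h z = -ev (2 * n) h (-z) := by linear_combination hsplit
    rw [e1, norm_neg]
    have e2 : -(starRingEnd ℂ) z = (starRingEnd ℂ) (-z) := by rw [map_neg]
    rw [e2, ev_conj, Complex.norm_conj]
  rw [← eval_polyC, ← eval_polyC, norm_eval_C, norm_eval_C, ← hP] at h1
  have hl : ‖P.leadingCoeff‖ ≠ 0 := by
    rw [hlead, Complex.norm_real]
    exact (norm_pos_iff.2 hN.ne').ne'
  have h2 := mul_left_cancel₀ hl h1
  have key : ∀ m : Multiset ℂ, (∀ x ∈ m, x.re < 0) →
      0 ≤ (m.map (fun x => ‖-(starRingEnd ℂ) z - x‖)).prod ∧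
      (m.map (fun x => ‖-(starRingEnd ℂ) z - x‖)).prod ≤ (m.map (fun x => ‖z - x‖)).prod ∧
      (m ≠ 0 → (m.map (fun x => ‖-(starRingEnd ℂ) z - x‖)).prod <
        (m.map (fun x => ‖z - x‖)).prod) := by
    intro m
    induction m using Multiset.induction_on with
    | empty => intro _; simp
    | cons x m ih =>
      intro hm
      obtain ⟨i1, i2, _⟩ := ih (fun y hy => hm y (Multiset.mem_cons_of_mem hy))
      have hx := hm x (Multiset.mem_cons_self _ _)
      have h3 : ‖-(starRingEnd ℂ) z - x‖ < ‖z - x‖ := by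
        rw [← sq_lt_sq₀ (norm_nonneg _) (norm_nonneg _), ← Complex.normSq_eq_norm_sq,
          ← Complex.normSq_eq_norm_sq, Complex.normSq_apply, Complex.normSq_apply]
        simp only [Complex.sub_re, Complex.neg_re, Complex.conj_re, Complex.sub_im,
          Complex.neg_im, Complex.conj_im, neg_neg]
        nlinarith [mul_pos hzre (neg_pos.2 hx)]
      have h4 : 0 < (m.map (fun x => ‖z - x‖)).prod := by
        refine Multiset.prod_pos ?_
        intro y hy
        obtain ⟨u, hu, rfl⟩ := Multiset.mem_map.1 hy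
        have hu' := hm u (Multiset.mem_cons_of_mem hu)
        refine norm_pos_iff.2 (fun h5 => ?_)
        have : z.re = u.re := by rw [sub_eq_zero.1 h5]
        linarith
      rw [Multiset.map_cons, Multiset.map_cons, Multiset.prod_cons, Multiset.prod_cons]
      refine ⟨mul_nonneg (norm_nonneg _) i1,
        mul_le_mul h3.le i2 i1 (norm_nonneg _), fun _ => ?_⟩
      calc _ ≤ ‖-(starRingEnd ℂ) z - x‖ * (m.map (fun x => ‖z - x‖)).prod :=
            mul_le_mul_of_nonneg_left i2 (norm_nonneg _)
        _ < _ := mul_lt_mul_of_pos_right h3 h4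
  have hne : P.roots ≠ 0 := by
    intro h3
    rw [h3, Multiset.card_zero] at hcard
    omega
  exact absurd h2 ((key _ hroots).2.2 hne).ne'

end Pool.Agent.GM
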