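import Pool.Agent.GM.Cert
import Pool.Agent.GM.Hurwitz

/-!
# GM.HadC: Malo's theorem with one complex factor, and `H_2` is Hurwitz
-/

open Polynomial Finset Filter Topology

namespace Pool.Agent.GM

open Pool.Agent.H62LR

/-- evaluation with complex coefficients -/
noncomputable def evC (n : ℕ) (c : ℕ → ℂ) (z : ℂ) : ℂ := ∑ k ∈ range (n + 1), c k * z ^ k

lemma evC_congr {n : ℕ} {c d : ℕ → ℂ} (h : ∀ k ≤ n, c k = d k) (z : ℂ) : evC n c z = evC n d z := by
  unfold evC
  refine Finset.sum_congr rfl (fun k hk => ?_)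
  rw [h k (by simpa [Nat.lt_succ_iff] using hk)]

/-- Schur–Szegő composition with a complex factor. -/
theorem compC {n : ℕ} {c : ℕ → ℂ} {b : ℕ → ℝ} (hc : ∀ z : ℂ, 0 < z.im → evC n c z ≠ 0)
    (hb : PF n b) : ∀ z : ℂ, 0 < z.im → evC n (fun k => c k * b k / n.choose k) z ≠ 0 := by
  intro z hz h0
  obtain ⟨m, hcard, hpos, hprod⟩ := hb.exists_roots
  have hb0 : (b 0 : ℂ) ≠ 0 := by exact_mod_cast (hb.1 0 (Nat.zero_le _)).ne'
  set α : ℕ → ℂ := fun k => c k / (n.choose k : ℂ) with hα
  have hbin : ∀ w : ℂ, (bin n α).eval w = evC n c w := by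
    intro w
    rw [eval_bin]
    unfold evC
    refine Finset.sum_congr rfl (fun k hk => ?_)
    have hk' : k ≤ n := by simpa [Nat.lt_succ_iff] using hk
    have : (n.choose k : ℂ) ≠ 0 := by exact_mod_cast (Nat.choose_pos hk').ne'
    rw [hα]
    field_simp
  set s : Multiset ℂ := m.map (fun ρ : ℝ => (ρ : ℂ) * z) with hs
  have h1 := gws s n (by rw [hs, Multiset.card_map, hcard]) (by
    intro ζ hζ
    obtain ⟨ρ, hρ, rfl⟩ := Multiset.mem_map.1 hζ
    simp only [Complex.mul_im, Complex.ofReal_re, Complex.ofReal_im, zero_mul, add_zero]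
    exact mul_pos (hpos ρ hρ) hz) α (fun w hw => by rw [hbin]; exact hc w hw)
  -- coefficients of the product
  have hcoef : ∀ k ≤ n, (b 0 : ℂ) * ((s.map (fun ζ => 1 + C ζ * X)).prod : ℂ[X]).coeff k =
      (b k : ℂ) * z ^ k := by
    intro k hk
    have h2 : ((poly n b).map (algebraMap ℝ ℂ)).comp (C z * X) =
        C (b 0 : ℂ) * ((s.map (fun ζ => 1 + C ζ * X)).prod : ℂ[X]) := by
      rw [hprod, Polynomial.map_mul, mul_comp, map_C, C_comp]
      congr 1
      rw [hs, Multiset.map_map]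
      rw [Polynomial.map_multiset_prod, multiset_prod_comp]
      rw [Multiset.map_map, Multiset.map_map]
      congr 1
      refine Multiset.map_congr rfl (fun ρ _ => ?_)
      simp only [Function.comp, Polynomial.map_add, Polynomial.map_one, Polynomial.map_mul, map_C,
        map_X, add_comp, one_comp, mul_comp, C_comp, X_comp, Complex.coe_algebraMap, C_mul]
      ring
    have h3 := congrArg (fun q => q.coeff k) h2
    simp only [comp_C_mul_X_coeff, coeff_map, coeff_C_mul] at h3
    rw [← h3, coeff_poly, if_pos hk]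
    simp
  apply h1
  have h2 : (b 0 : ℂ) * ∑ k ∈ range (n + 1),
      ((s.map (fun ζ => 1 + C ζ * X)).prod : ℂ[X]).coeff k * α k =
      evC n (fun k => c k * b k / n.choose k) z := by
    rw [Finset.mul_sum]
    unfold evC
    refine Finset.sum_congr rfl (fun k hk => ?_)
    have hk' : k ≤ n := by simpa [Nat.lt_succ_iff] using hk
    rw [← mul_assoc, hcoef k hk', hα]
    ring
  rw [h0] at h2
  rcases mul_eq_zero.1 h2 with h | h
  · exact absurd h hb0
  · exact h

/-- Malo with a complex factor. -/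
theorem hadamardC {n : ℕ} {c : ℕ → ℂ} {b : ℕ → ℝ} (hc : ∀ z : ℂ, 0 < z.im → evC n c z ≠ 0)
    (hb : PF n b) : ∀ z : ℂ, 0 < z.im → evC n (fun k => c k * b k) z ≠ 0 := by
  have h1 : PF n (fun k => (n.choose k : ℝ) * b k) := by
    refine ((ms_choose n le_rfl).comp hb).congr (fun k hk => ?_)
    have := (choose_pos' hk).ne'
    beta_reduce
    rw [Real.rpow_one]
    field_simp
  intro z hz
  have h2 := compC hc h1 z hz
  rwa [evC_congr (d := fun k => c k * b k) (fun k hk => ?_)] at h2
  have : (n.choose k : ℂ) ≠ 0 := by exact_mod_cast (Nat.choose_pos hk).ne'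
  push_cast
  field_simp

/-- quantitative lower bound for complex coefficients -/
lemma lowerC {n : ℕ} {c : ℕ → ℂ} (hc : ∀ z : ℂ, 0 < z.im → evC n c z ≠ 0) (hn : c n ≠ 0)
    {z : ℂ} (hz : 0 < z.im) : ‖c n‖ * z.im ^ n ≤ ‖evC n c z‖ := by
  set P : ℂ[X] := ∑ k ∈ range (n + 1), monomial k (c k) with hP
  have hev : ∀ w, P.eval w = evC n c w := by
    intro w
    rw [hP, eval_finsetSum]
    simp [evC]
  have hcoef : ∀ k, P.coeff k = if k ≤ n then c k else 0 := by
    intro k
    rw [hP, finsetSum_coeff]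
    simp only [coeff_monomial]
    rw [Finset.sum_ite_eq']
    simp
  have hdeg : P.natDegree = n := by
    apply natDegree_eq_of_le_of_coeff_ne_zero
    · rw [natDegree_le_iff_coeff_eq_zero]
      intro k hk
      rw [hcoef, if_neg (by omega)]
    · rw [hcoef, if_pos le_rfl]
      exact hn
  have hlead : P.leadingCoeff = c n := by rw [leadingCoeff, hdeg, hcoef, if_pos le_rfl]
  have hP0 : P ≠ 0 := by
    intro h1
    rw [h1, leadingCoeff_zero] at hlead
    exact hn hlead.symm
  have hcard : Multiset.card P.roots = n := by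
    rw [← (IsAlgClosed.splits P).natDegree_eq_card_roots, hdeg]
  rw [← hev, norm_eval_C, hlead]
  refine mul_le_mul_of_nonneg_left ?_ (norm_nonneg _)
  have hroots : ∀ w ∈ P.roots, w.im ≤ 0 := by
    intro w hw
    rw [mem_roots hP0, IsRoot.def, hev] at hw
    by_contra h
    exact hc w (not_le.1 h) hw
  have key : ∀ m : Multiset ℂ, (∀ w ∈ m, w.im ≤ 0) →
      z.im ^ (Multiset.card m) ≤ (m.map (fun w => ‖z - w‖)).prod := by
    intro m
    induction m using Multiset.induction_on with
    | empty => intro _; simp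
    | cons w m ih =>
      intro hm
      rw [Multiset.card_cons, pow_succ, Multiset.map_cons, Multiset.prod_cons, mul_comm]
      have h1 : z.im ≤ ‖z - w‖ := by
        refine le_trans ?_ (Complex.im_le_norm _)
        rw [Complex.sub_im]
        linarith [hm w (Multiset.mem_cons_self _ _)]
      exact mul_le_mul h1 (ih (fun x hx => hm x (Multiset.mem_cons_of_mem hx)))
        (pow_nonneg hz.le _) (norm_nonneg _)
  have := key _ hroots
  rwa [hcard] at this

/-- the sequence with `0` beyond `n` -/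
noncomputable def ext (n : ℕ) (a : ℕ → ℝ) (k : ℕ) : ℝ := if k ≤ n then a k else 0

/-- the coefficients of `(x + ε) ∑ a_k x^k` -/
noncomputable def mulX (n : ℕ) (a : ℕ → ℝ) (k : ℕ) : ℝ :=
  if k = 0 then 0 else ext n a (k - 1)

lemma evC_mul (n : ℕ) (a : ℕ → ℝ) (ζ z : ℂ) :
    evC (n + 1) (fun k => (mulX n a k : ℂ) + ζ * (ext n a k : ℂ)) z = (z + ζ) * ev n a z := by
  unfold evC
  simp only [add_mul]
  rw [Finset.sum_add_distrib]
  congr 1
  · rw [Finset.sum_range_succ']
    unfold ev
    rw [Finset.mul_sum]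
    simp only [mulX, if_true, Complex.ofReal_zero, zero_mul, add_zero]
    refine Finset.sum_congr rfl (fun k hk => ?_)
    rw [if_neg (Nat.succ_ne_zero k), Nat.add_sub_cancel, ext,
      if_pos (by simpa [Nat.lt_succ_iff] using hk), pow_succ]
    ring
  · rw [Finset.sum_range_succ]
    unfold ev
    rw [Finset.mul_sum]
    have e : (ext n a (n + 1) : ℂ) = 0 := by
      unfold ext
      rw [if_neg (by omega)]
      simp
    rw [e, mul_zero, zero_mul, add_zero]
    refine Finset.sum_congr rfl (fun k hk => ?_)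
    rw [ext, if_pos (by simpa [Nat.lt_succ_iff] using hk)]
    ring

lemma pf_mulX {n : ℕ} {a : ℕ → ℝ} (ha : PF n a) {ε : ℝ} (hε : 0 < ε) :
    PF (n + 1) (fun k => mulX n a k + ε * ext n a k) := by
  refine ⟨fun k hk => ?_, fun z hz h0 => ?_⟩
  · beta_reduce
    unfold mulX ext
    rcases Nat.eq_zero_or_pos k with h | h
    · subst h
      have := ha.1 0 (Nat.zero_le _)
      simp
      positivity
    · have h1 := ha.1 (k - 1) (by omega)
      rw [if_neg (by omega), if_pos (by omega)]
      split_ifs with h2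
      · have := ha.1 k h2
        positivity
      · simpa using h1
  · have h1 := evC_mul n a (ε : ℂ) z
    have h2 : evC (n + 1) (fun k => (mulX n a k : ℂ) + (ε : ℂ) * (ext n a k : ℂ)) z =
        ev (n + 1) (fun k => mulX n a k + ε * ext n a k) z := by
      unfold evC ev
      refine Finset.sum_congr rfl (fun k _ => ?_)
      push_cast
      ring
    rw [h2, h0] at h1
    rcases mul_eq_zero.1 h1.symm with h | h
    · have := congrArg Complex.im h
      simp at this
      linarith
    · exact ha.2 z hz h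

/-- key non-vanishing: `∑ a_k (a_k + ζ a_{k+1}) z^k ≠ 0` for `ζ, z` in the upper half plane -/
lemma shift_ne_zero {n : ℕ} {a : ℕ → ℝ} (ha : PF n a) {ζ z : ℂ} (hζ : 0 < ζ.im)
    (hz : 0 < z.im) :
    ∑ k ∈ range (n + 1), (a k : ℂ) * ((a k : ℂ) + ζ * (ext n a (k + 1) : ℂ)) * z ^ k ≠ 0 := by
  intro h0
  -- reverse the roles: use `c_k = a_{k-1} + ζ a_k`, `b_k = a_{k-1} + ε a_k`
  set c : ℕ → ℂ := fun k => (mulX n a k : ℂ) + ζ * (ext n a k : ℂ) with hc
  have hcne : ∀ w : ℂ, 0 < w.im → evC (n + 1) c w ≠ 0 := by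
    intro w hw
    rw [hc, evC_mul]
    refine mul_ne_zero (fun h => ?_) (ha.2 w hw)
    have := congrArg Complex.im h
    simp only [Complex.add_im, Complex.zero_im] at this
    linarith
  have hcn : c (n + 1) = (a n : ℂ) := by
    simp only [hc, mulX, ext]
    rw [if_neg (by omega), if_pos (by omega), if_neg (by omega)]
    simp
  have hbn : ∀ ε : ℝ, mulX n a (n + 1) + ε * ext n a (n + 1) = a n := by
    intro ε
    simp only [mulX, ext]
    rw [if_neg (by omega), if_pos (by omega), if_neg (by omega)]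
    simp
  have han := ha.1 n le_rfl
  have hlow : ∀ ε : ℝ, 0 < ε → a n * a n * z.im ^ (n + 1) ≤
      ‖evC (n + 1) (fun k => c k * ((mulX n a k + ε * ext n a k : ℝ) : ℂ)) z‖ := by
    intro ε hε
    have h1 := hadamardC hcne (pf_mulX ha hε)
    have h2 := lowerC h1 (by
      beta_reduce
      rw [hbn, hcn]
      exact mul_ne_zero (by exact_mod_cast han.ne') (by exact_mod_cast han.ne')) hz
    rw [hbn, hcn, norm_mul, Complex.norm_real, Real.norm_of_nonneg han.le] at h2
    exact h2
  have hcont : Continuous (fun ε : ℝ =>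
      ‖evC (n + 1) (fun k => c k * ((mulX n a k + ε * ext n a k : ℝ) : ℂ)) z‖) := by
    unfold evC
    fun_prop
  have hlim : a n * a n * z.im ^ (n + 1) ≤
      ‖evC (n + 1) (fun k => c k * ((mulX n a k + 0 * ext n a k : ℝ) : ℂ)) z‖ := by
    refine ge_of_tendsto (hcont.continuousWithinAt (s := Set.Ioi 0) (x := (0 : ℝ))) ?_
    filter_upwards [self_mem_nhdsWithin] with ε hε
    exact hlow ε hε
  have e : evC (n + 1) (fun k => c k * ((mulX n a k + 0 * ext n a k : ℝ) : ℂ)) z =
      z * ∑ k ∈ range (n + 1), (a k : ℂ) * ((a k : ℂ) + ζ * (ext n a (k + 1) : ℂ)) * z ^ k := by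
    unfold evC
    rw [Finset.sum_range_succ']
    simp only [mulX, zero_mul, add_zero, if_true, Complex.ofReal_zero, mul_zero]
    rw [Finset.mul_sum]
    refine Finset.sum_congr rfl (fun k hk => ?_)
    have hk' : k ≤ n := by simpa [Nat.lt_succ_iff] using hk
    have e1 : ext n a k = a k := by rw [ext, if_pos hk']
    simp only [hc, mulX, if_neg (Nat.succ_ne_zero k), Nat.add_sub_cancel, e1]
    rw [pow_succ]
    ring
  rw [e, h0, mul_zero, norm_zero] at hlim
  have : 0 < a n * a n * z.im ^ (n + 1) := by positivity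
  linarith

/-- the polynomial `∑ a_k^r z^{2k} + a_k^{r-1} a_{k+1} z^{2k+1}` -/
noncomputable def hco (a : ℕ → ℝ) (r : ℝ) (j : ℕ) : ℝ := a (j / 2) ^ (r - 1) * a ((j + 1) / 2)

lemma hco_even {a : ℕ → ℝ} {k : ℕ} (ha : 0 < a k) (r : ℝ) : hco a r (2 * k) = a k ^ r := by
  unfold hco
  have e1 : 2 * k / 2 = k := by omega
  have e2 : (2 * k + 1) / 2 = k := by omega
  rw [e1, e2]
  have := Real.rpow_add ha (r - 1) 1
  rw [Real.rpow_one] at this
  rw [← this]
  congr 1
  ring

lemma hco_odd (a : ℕ → ℝ) (k : ℕ) (r : ℝ) :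
    hco a r (2 * k + 1) = a k ^ (r - 1) * a (k + 1) := by
  unfold hco
  have e1 : (2 * k + 1) / 2 = k := by omega
  have e2 : (2 * k + 1 + 1) / 2 = k + 1 := by omega
  rw [e1, e2]

lemma hco_pos {n : ℕ} {a : ℕ → ℝ} (ha : ∀ k ≤ n, 0 < a k) (r : ℝ) {j : ℕ} (hj : j ≤ 2 * n) :
    0 < hco a r j :=
  mul_pos (Real.rpow_pos_of_pos (ha _ (by omega)) _) (ha _ (by omega))

/-- splitting into even and odd parts -/
lemma ev_split (n : ℕ) (h : ℕ → ℝ) (z : ℂ) :
    ev (2 * n) h z = ∑ k ∈ range (n + 1), (h (2 * k) : ℂ) * (z ^ 2) ^ k +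
      z * ∑ k ∈ range n, (h (2 * k + 1) : ℂ) * (z ^ 2) ^ k := by
  unfold ev
  induction n with
  | zero => simp
  | succ m ih =>
    have e1 : 2 * (m + 1) + 1 = 2 * m + 1 + 1 + 1 := by ring
    have e3 : ∑ k ∈ range (m + 1), (h (2 * k + 1) : ℂ) * (z ^ 2) ^ k =
        ∑ k ∈ range m, (h (2 * k + 1) : ℂ) * (z ^ 2) ^ k + (h (2 * m + 1) : ℂ) * (z ^ 2) ^ m :=
      Finset.sum_range_succ _ m
    have e4 : ∑ k ∈ range (m + 1 + 1), (h (2 * k) : ℂ) * (z ^ 2) ^ k =
        ∑ k ∈ range (m + 1), (h (2 * k) : ℂ) * (z ^ 2) ^ k +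
          (h (2 * (m + 1)) : ℂ) * (z ^ 2) ^ (m + 1) := Finset.sum_range_succ _ (m + 1)
    rw [e1, Finset.sum_range_succ, Finset.sum_range_succ, ih, e3, e4]
    have e2 : 2 * m + 1 + 1 = 2 * (m + 1) := by ring
    rw [e2, ← pow_mul, ← pow_mul, pow_succ z (2 * m)]
    ring

/-- `H_2` is Hurwitz. -/
theorem hur_two {n : ℕ} {a : ℕ → ℝ} (ha : PF n a) : Hur (2 * n) (hco a 2) := by
  have key : ∀ z : ℂ, 0 < z.re → 0 < z.im → ev (2 * n) (hco a 2) z ≠ 0 := by
    intro z hre him h0
    have hz2 : 0 < (z ^ 2).im := by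
      rw [pow_two, Complex.mul_im]
      nlinarith [mul_pos hre him]
    refine shift_ne_zero ha him hz2 ?_
    rw [← h0, ev_split]
    simp only [mul_add, add_mul, Finset.sum_add_distrib]
    congr 1
    · refine Finset.sum_congr rfl (fun k hk => ?_)
      have hk' : k ≤ n := by simpa [Nat.lt_succ_iff] using hk
      rw [hco_even (ha.1 k hk'), Real.rpow_two]
      push_cast
      ring
    · rw [Finset.sum_range_succ]
      have e : (ext n a (n + 1) : ℂ) = 0 := by
        unfold ext
        rw [if_neg (by omega)]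
        simp
      rw [e, mul_zero, mul_zero, zero_mul, add_zero, Finset.mul_sum]
      refine Finset.sum_congr rfl (fun k hk => ?_)
      have hk' := mem_range.1 hk
      rw [hco_odd, ext, if_pos (by omega)]
      have : (2 : ℝ) - 1 = 1 := by norm_num
      rw [this, Real.rpow_one]
      push_cast
      ring
  refine ⟨fun k hk => hco_pos ha.1 2 hk, fun z hre h0 => ?_⟩
  rcases lt_trichotomy z.im 0 with h | h | h
  · have h1 := key ((starRingEnd ℂ) z) (by simpa using hre) (by simpa using h)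
    rw [ev_conj, h0, map_zero] at h1
    exact h1 rfl
  · have e : z = (z.re : ℂ) := by
      apply Complex.ext
      · simp
      · simp [h]
    rw [e] at h0
    unfold ev at h0
    have h1 : (0 : ℝ) < ∑ k ∈ range (2 * n + 1), hco a 2 k * z.re ^ k :=
      Finset.sum_pos (fun k hk => mul_pos (hco_pos ha.1 2 (by simpa [Nat.lt_succ_iff] using hk))
        (pow_pos hre k)) ⟨0, by simp⟩
    have h2 : ((∑ k ∈ range (2 * n + 1), hco a 2 k * z.re ^ k : ℝ) : ℂ) = 0 := by
      rw [← h0]
      push_cast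
      rfl
    have h3 : (∑ k ∈ range (2 * n + 1), hco a 2 k * z.re ^ k : ℝ) = 0 := by exact_mod_cast h2
    linarith
  · exact key z hre h h0

end Pool.Agent.GM
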