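import Mathlib
import Pool.Agent.PC.Simple
import Pool.Agent.GM.Cert

/-!
# GM.MaloSimple: Malo's theorem with simple zeros

For PF sequences `a`, `b` of length `n + 1` the polynomial `∑ a_k b_k x^k` has only simple zeros;
in particular `∑ a_k ^ m x^k`, `m ≥ 2`, has `n` distinct negative zeros.
-/

open Finset Polynomial

namespace Pool.Agent.GM

open Pool.Agent.H62LR Pool.Agent.PC

lemma ms_invfact (n : ℕ) : MS n (fun k => ((k.factorial : ℝ))⁻¹) :=
  (pf_laguerre n).congr (fun _ _ => rfl)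

lemma simple_invfact (n : ℕ) : Simple n (fun k => (n.choose k : ℝ) * ((k.factorial : ℝ))⁻¹) := by
  rcases Nat.eq_zero_or_pos n with h | hn
  · subst h
    intro x _ h0 _
    simp at h0
  · intro x hx h0 h1
    refine simple_gamma (α := 0) (s := 1) hn le_rfl le_rfl (by norm_num) hx
      (Eq.trans (Finset.sum_congr rfl (fun k _ => ?_)) h0)
      (Eq.trans (Finset.sum_congr rfl (fun k _ => ?_)) h1)
    · rw [Real.rpow_neg_one, add_zero, Real.Gamma_nat_eq_factorial]
    · rw [Real.rpow_neg_one, add_zero, Real.Gamma_nat_eq_factorial]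

/-- **Malo's theorem, simple zeros.** -/
theorem simple_mul {n : ℕ} {a b : ℕ → ℝ} (ha : PF n a) (hb : PF n b) :
    Simple n (fun k => a k * b k) := by
  have h1 : PF n (fun k => (k.factorial : ℝ) * (a k * b k)) := by
    have h2 := ((ms_invfact n).reverse).apply (ha.comp hb)
    refine (h2.const_mul (c := (n.factorial : ℝ)) (by positivity)).congr (fun k hk => ?_)
    have h3 : ((n.choose k : ℕ) : ℝ) * (k.factorial : ℝ) * ((n - k).factorial : ℝ) =
        (n.factorial : ℝ) := by
      exact_mod_cast Nat.choose_mul_factorial_mul_factorial hk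
    have h4 := (choose_pos' hk).ne'
    have h5 : ((n - k).factorial : ℝ) ≠ 0 := by positivity
    rw [← h3]
    field_simp
  have hB : MS n (fun k => (k.factorial : ℝ) * (a k * b k) / (n.choose k : ℝ)) := by
    refine h1.congr (fun k hk => ?_)
    have h4 := (choose_pos' hk).ne'
    field_simp
  refine (simple_comp (ms_invfact n) (simple_invfact n) hB).congr (fun k hk => ?_)
  have h4 := (choose_pos' hk).ne'
  have h5 : (k.factorial : ℝ) ≠ 0 := by positivity
  field_simp

/-- `∑ a_k ^ (m + 2) x^k` has simple zeros. -/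
theorem simple_pow {n : ℕ} {a : ℕ → ℝ} (ha : PF n a) (m : ℕ) :
    Simple n (fun k => a k ^ (m + 2)) := by
  have h := pf_npow ha m
  refine (simple_mul h ha).congr (fun k hk => ?_)
  have h0 := ha.1 k hk
  rw [pow_succ]
  congr 1
  rw [← Real.rpow_natCast]
  congr 1
  push_cast
  ring

/-- the same with a real exponent that is a natural number `≥ 2` -/
theorem simple_rpow_nat {n : ℕ} {a : ℕ → ℝ} (ha : PF n a) {m : ℕ} (hm : 2 ≤ m) :
    Simple n (fun k => a k ^ (m : ℝ)) := by
  obtain ⟨N, rfl⟩ : ∃ N : ℕ, m = N + 2 := ⟨m - 2, by omega⟩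
  refine (simple_pow ha N).congr (fun k _ => ?_)
  rw [Real.rpow_natCast]

/-- `∑ a_k ^ m x^k` is real-rooted with positive coefficients (`m ≥ 1`, natural power) -/
theorem pf_pow {n : ℕ} {a : ℕ → ℝ} (ha : PF n a) {m : ℕ} (hm : 1 ≤ m) :
    PF n (fun k => a k ^ m) := by
  obtain ⟨N, rfl⟩ : ∃ N : ℕ, m = N + 1 := ⟨m - 1, by omega⟩
  refine (pf_npow ha N).congr (fun k _ => ?_)
  rw [← Real.rpow_natCast]
  congr 1
  push_cast
  ring

/-- PF polynomials with simple zeros are products of distinct factors. -/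
theorem exists_simple_roots {n : ℕ} {a : ℕ → ℝ} (ha : PF n a) (hs : Simple n a) :
    ∃ ξ : Fin n → ℝ, StrictMono ξ ∧ (∀ i, 0 < ξ i) ∧
      poly n a = C (a n) * ∏ i, (X + C (ξ i)) := by
  set p : ℝ[X] := poly n a with hp
  have hdeg : p.natDegree = n := natDegree_poly (ha.1 n le_rfl).ne'
  have hp0 : p ≠ 0 := by
    intro h
    have := congrArg (fun q => q.coeff 0) h
    simp only [hp, coeff_poly, if_pos (Nat.zero_le n), coeff_zero] at this
    have h2 := ha.1 0 (Nat.zero_le _)
    linarith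
  have hcoef : ∀ k, 0 ≤ p.coeff k := by
    intro k
    rw [hp, coeff_poly]
    split_ifs with h
    · exact (ha.1 k h).le
    · exact le_rfl
  have hneg : ∀ x, p.eval x = 0 → x < 0 := by
    intro x hx
    rcases lt_trichotomy x 0 with h | h | h
    · exact h
    · exfalso
      rw [h, ← coeff_zero_eq_eval_zero, hp, coeff_poly, if_pos (Nat.zero_le _)] at hx
      exact (ha.1 0 (Nat.zero_le _)).ne' hx
    · exact absurd hx (Pool.Agent.H49.PowerForm.eval_pos hp0 hcoef h).ne'
  have hder : ∀ x, p.eval x = 0 → p.derivative.eval x ≠ 0 := by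
    intro x hx h1
    refine hs x (hneg x hx) ?_ ?_
    · rw [← eval_poly]; exact hx
    · rw [sum_deriv, ← hp, h1, mul_zero]
  have hsp := Pool.Agent.H49.RR.RealRooted.splits ha.realRooted
  have hnodup : p.roots.Nodup := by
    rw [Multiset.nodup_iff_count_le_one]
    intro x
    rw [count_roots]
    by_contra hc
    push Not at hc
    have h1 := (one_lt_rootMultiplicity_iff_isRoot hp0).1 hc
    exact hder x h1.1 h1.2
  set R : Finset ℝ := p.roots.toFinset with hR
  have hRcard : R.card = n := by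
    rw [hR, Multiset.toFinset_card_of_nodup hnodup, ← hsp.natDegree_eq_card_roots, ← hp, hdeg]
  have hRroot : ∀ x ∈ R, p.eval x = 0 := by
    intro x hx
    rw [hR, Multiset.mem_toFinset, mem_roots hp0] at hx
    exact hx
  have hprod : p = C (a n) * ∏ x ∈ R, (X - C x) := by
    have h1 := hsp.eq_prod_roots
    rw [← hp] at h1
    have h2 : p.leadingCoeff = a n := by
      rw [leadingCoeff, hdeg, hp, coeff_poly, if_pos le_rfl]
    have h3 : (p.roots.map (fun x => X - C x)).prod = ∏ x ∈ R, (X - C x) := by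
      rw [Finset.prod_eq_multiset_prod, hR, Multiset.toFinset_val, Multiset.dedup_eq_self.2 hnodup]
    conv_lhs => rw [h1]
    rw [h2, h3]
  -- reflect
  set S : Finset ℝ := R.image (fun x => -x) with hS
  have hScard : S.card = n := by
    rw [hS, Finset.card_image_of_injective _ neg_injective, hRcard]
  have hSprod : ∏ x ∈ R, (X - C x) = ∏ y ∈ S, (X + C y : ℝ[X]) := by
    rw [hS, Finset.prod_image (fun x _ y _ h => neg_injective h)]
    refine Finset.prod_congr rfl (fun x _ => ?_)
    rw [C_neg, sub_eq_add_neg]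
  refine ⟨fun i => S.orderEmbOfFin hScard i, (S.orderEmbOfFin hScard).strictMono, fun i => ?_, ?_⟩
  · have h1 := S.orderEmbOfFin_mem hScard i
    obtain ⟨x, hx, hx'⟩ := Finset.mem_image.1 h1
    have h2 := hneg x (hRroot x hx)
    beta_reduce
    rw [← hx']
    linarith
  · rw [hprod, hSprod]
    congr 1
    rw [← Finset.prod_coe_sort S]
    exact (Fintype.prod_equiv (S.orderIsoOfFin hScard).toEquiv _ _ (fun i => rfl)).symm

/-- the zeros `-ξ_i` satisfy `∑ a_k (-ξ_i)^k = 0` -/
lemma sum_eq_zero_of_prod {n : ℕ} {a : ℕ → ℝ} {ξ : Fin n → ℝ}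
    (h : poly n a = C (a n) * ∏ i, (X + C (ξ i))) (i : Fin n) :
    ∑ k ∈ range (n + 1), a k * (-ξ i) ^ k = 0 := by
  rw [← eval_poly, h, eval_mul, eval_prod, Finset.prod_eq_zero (Finset.mem_univ i), mul_zero]
  simp

/-- `n` distinct zeros of `∑ a_k ^ m x^k`, `m ≥ 2`. -/
theorem exists_roots_pow {n : ℕ} {a : ℕ → ℝ} (ha : PF n a) {m : ℕ} (hm : 2 ≤ m) :
    ∃ ξ : Fin n → ℝ, StrictMono ξ ∧ (∀ i, 0 < ξ i) ∧
      poly n (fun k => a k ^ m) = C (a n ^ m) * ∏ i, (X + C (ξ i)) := by
  obtain ⟨N, rfl⟩ : ∃ N : ℕ, m = N + 2 := ⟨m - 2, by omega⟩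
  exact exists_simple_roots (pf_pow ha (by omega)) (simple_pow ha N)

end Pool.Agent.GM
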